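import Mathlib

/-!
# Inverse monoids given by generators and relations
-/

set_option autoImplicit false

namespace Pool.Agent.Q38.IM

/-- words in the letters `a` and `a⁻¹` (`(a, true)` and `(a, false)`) for `a ∈ A` -/
abbrev Word (A : Type) : Type := List (A × Bool)

/-- the formal inverse of a word -/
def invW {A : Type} (w : Word A) : Word A := (w.map fun l => (l.1, !l.2)).reverse

/-- the relations of the inverse monoid generated by `A` with relations `R`: `w w⁻¹ w = w`,
`w w⁻¹ z z⁻¹ = z z⁻¹ w w⁻¹`, and `u = v` for `(u, v) ∈ R` -/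
inductive Rel {A : Type} (R : Set (Word A × Word A)) :
    FreeMonoid (A × Bool) → FreeMonoid (A × Bool) → Prop
  | reg (w : Word A) : Rel R (FreeMonoid.ofList (w ++ invW w ++ w)) (FreeMonoid.ofList w)
  | comm (w z : Word A) : Rel R (FreeMonoid.ofList (w ++ invW w ++ (z ++ invW z)))
      (FreeMonoid.ofList (z ++ invW z ++ (w ++ invW w)))
  | rel (u v : Word A) (h : (u, v) ∈ R) : Rel R (FreeMonoid.ofList u) (FreeMonoid.ofList v)

/-- the inverse monoid `Inv⟨A | R⟩` -/
def InvMon {A : Type} (R : Set (Word A × Word A)) : Type := (conGen (Rel R)).Quotient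

instance {A : Type} (R : Set (Word A × Word A)) : Monoid (InvMon R) :=
  inferInstanceAs (Monoid (conGen (Rel R)).Quotient)

/-- the element of `Inv⟨A | R⟩` represented by a word -/
def val {A : Type} (R : Set (Word A × Word A)) (w : Word A) : InvMon R :=
  ((FreeMonoid.ofList w : FreeMonoid (A × Bool)) : (conGen (Rel R)).Quotient)

/-- a monoid in which every element `a` has exactly one `b` with `a b a = a`, `b a b = b` -/
def IsInverseMonoid (M : Type) [Monoid M] : Prop :=
  ∀ a : M, ∃! b : M, a * b * a = a ∧ b * a * b = b

section Basic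

variable {A : Type} {R : Set (Word A × Word A)}

theorem invW_nil : invW ([] : Word A) = [] := rfl

theorem invW_append (u v : Word A) : invW (u ++ v) = invW v ++ invW u := by
  simp [invW]

theorem invW_invW (u : Word A) : invW (invW u) = u := by
  simp [invW, List.map_reverse, Function.comp_def]

theorem val_nil : val R [] = 1 := rfl

theorem val_append (u v : Word A) : val R (u ++ v) = val R u * val R v := rfl

theorem val_surj (x : InvMon R) : ∃ w, val R w = x := by
  induction x using Con.induction_on with
  | H w => exact ⟨FreeMonoid.toList w, rfl⟩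

theorem val_eq_of_rel {u v : Word A} (h : Rel R (FreeMonoid.ofList u) (FreeMonoid.ofList v)) :
    val R u = val R v :=
  (Con.eq _).2 (ConGen.Rel.of _ _ h)

theorem val_eq_of_mem {u v : Word A} (h : (u, v) ∈ R) : val R u = val R v :=
  val_eq_of_rel (Rel.rel u v h)

theorem val_reg (w : Word A) : val R w * val R (invW w) * val R w = val R w := by
  have := val_eq_of_rel (Rel.reg (R := R) w)
  rwa [val_append, val_append] at this

theorem val_reg' (w : Word A) : val R (invW w) * val R w * val R (invW w) = val R (invW w) := by
  have := val_reg (R := R) (invW w)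
  rwa [invW_invW] at this

theorem val_comm (w z : Word A) :
    val R w * val R (invW w) * (val R z * val R (invW z)) =
      val R z * val R (invW z) * (val R w * val R (invW w)) := by
  have := val_eq_of_rel (Rel.comm (R := R) w z)
  rwa [val_append, val_append, val_append, val_append, val_append, val_append] at this

/-- an idempotent is equal to its formal inverse -/
theorem idem_eq {w : Word A} (h : val R w * val R w = val R w) :
    val R (invW w) = val R w := by
  set e := val R w with he
  set f := val R (invW w) with hf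
  have h1 : e * f * e = e := val_reg w
  have h2 : f * e * f = f := val_reg' w
  have h3 : (e * f) * (f * e) = (f * e) * (e * f) := by
    have := val_comm (R := R) w (invW w)
    rwa [invW_invW] at this
  have h4 : e = e * f * f * e := by
    calc e = e * e := h.symm
      _ = (e * f * e) * (e * f * e) := by rw [h1]
      _ = e * ((f * e) * (e * f)) * e := by simp only [mul_assoc]
      _ = e * ((e * f) * (f * e)) * e := by rw [h3]
      _ = (e * e) * f * f * (e * e) := by simp only [mul_assoc]
      _ = e * f * f * e := by rw [h]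
  calc f = f * e * f := h2.symm
    _ = f * (e * e) * f := by rw [h]
    _ = (f * e) * (e * f) := by simp only [mul_assoc]
    _ = (e * f) * (f * e) := h3.symm
    _ = e * f * f * e := by simp only [mul_assoc]
    _ = e := h4.symm

/-- idempotents commute -/
theorem idem_comm {x y : InvMon R} (hx : x * x = x) (hy : y * y = y) : x * y = y * x := by
  obtain ⟨u, rfl⟩ := val_surj x
  obtain ⟨v, rfl⟩ := val_surj y
  have h := val_comm (R := R) u v
  rwa [idem_eq hx, idem_eq hy, hx, hy] at h

theorem isInverseMonoid (R : Set (Word A × Word A)) : IsInverseMonoid (InvMon R) := by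
  intro a
  obtain ⟨w, rfl⟩ := val_surj a
  refine ⟨val R (invW w), ⟨val_reg w, val_reg' w⟩, ?_⟩
  rintro c ⟨h1, h2⟩
  set a := val R w with ha
  set b := val R (invW w) with hb
  have h3 : a * b * a = a := val_reg w
  have h4 : b * a * b = b := val_reg' w
  have i1 : (a * b) * (a * b) = a * b := by rw [← mul_assoc, h3]
  have i2 : (a * c) * (a * c) = a * c := by rw [← mul_assoc, h1]
  have i3 : (b * a) * (b * a) = b * a := by rw [← mul_assoc, h4]
  have i4 : (c * a) * (c * a) = c * a := by rw [← mul_assoc, h2]
  have c1 := idem_comm i1 i2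
  have c2 := idem_comm i3 i4
  calc c = c * a * c := h2.symm
    _ = c * (a * b * a) * c := by rw [h3]
    _ = c * ((a * b) * (a * c)) := by simp only [mul_assoc]
    _ = c * ((a * c) * (a * b)) := by rw [c1]
    _ = c * (a * c * a) * b := by simp only [mul_assoc]
    _ = c * a * b := by rw [h1]
    _ = c * a * (b * a * b) := by rw [h4]
    _ = ((c * a) * (b * a)) * b := by simp only [mul_assoc]
    _ = ((b * a) * (c * a)) * b := by rw [c2]
    _ = b * (a * c * a) * b := by simp only [mul_assoc]
    _ = b := by rw [h1, h4]

/-- the natural partial order -/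
def Le (x y : InvMon R) : Prop := ∃ e : InvMon R, e * e = e ∧ x = e * y

theorem Le.refl (x : InvMon R) : Le x x := ⟨1, by simp, by simp⟩

theorem Le.trans {x y z : InvMon R} (h : Le x y) (h' : Le y z) : Le x z := by
  obtain ⟨e, he, rfl⟩ := h
  obtain ⟨f, hf, rfl⟩ := h'
  refine ⟨e * f, ?_, by rw [mul_assoc]⟩
  calc e * f * (e * f) = e * (f * e) * f := by simp only [mul_assoc]
    _ = e * (e * f) * f := by rw [idem_comm hf he]
    _ = (e * e) * (f * f) := by simp only [mul_assoc]
    _ = e * f := by rw [he, hf]

theorem Le.mul_right {x y : InvMon R} (h : Le x y) (z : InvMon R) : Le (x * z) (y * z) := by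
  obtain ⟨e, he, rfl⟩ := h
  exact ⟨e, he, by rw [mul_assoc]⟩

theorem Le.mul_left {x y : InvMon R} (h : Le x y) (z : InvMon R) : Le (z * x) (z * y) := by
  obtain ⟨e, he, rfl⟩ := h
  obtain ⟨w, rfl⟩ := val_surj z
  set c := val R w with hc
  set d := val R (invW w) with hd
  have h1 : c * d * c = c := val_reg w
  have h2 : d * c * d = d := val_reg' w
  have i1 : (d * c) * (d * c) = d * c := by rw [← mul_assoc, h2]
  have h3 := idem_comm i1 he
  refine ⟨c * e * d, ?_, ?_⟩
  · calc c * e * d * (c * e * d) = c * (e * (d * c)) * e * d := by simp only [mul_assoc]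
      _ = c * ((d * c) * e) * e * d := by rw [h3]
      _ = (c * d * c) * (e * e) * d := by simp only [mul_assoc]
      _ = c * e * d := by rw [h1, he]
  · calc c * (e * y) = (c * d * c) * e * y := by rw [h1, mul_assoc]
      _ = c * ((d * c) * e) * y := by simp only [mul_assoc]
      _ = c * (e * (d * c)) * y := by rw [h3]
      _ = c * e * d * (c * y) := by simp only [mul_assoc]

theorem le_one_iff {x : InvMon R} : Le x 1 ↔ x * x = x := by
  constructor
  · rintro ⟨e, he, rfl⟩
    rw [mul_one]
    exact he
  · intro h
    exact ⟨x, h, by rw [mul_one]⟩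

/-- `x x⁻¹ ≤ 1` -/
theorem le_one_mul (w : Word A) : Le (val R w * val R (invW w)) 1 := by
  rw [le_one_iff, ← mul_assoc, val_reg]

/-- `p` and `q` are equal if `p p⁻¹ = q q⁻¹` and `p⁻¹ q` is idempotent -/
theorem eq_of_idem {p q : Word A}
    (h1 : val R p * val R (invW p) = val R q * val R (invW q))
    (h2 : Le (val R (invW p ++ q)) 1) (h3 : Le (val R (invW q ++ p)) 1) : val R p = val R q := by
  rw [le_one_iff, val_append] at h2 h3
  have e1 : val R q = val R p * (val R (invW p) * val R q) := by
    rw [← mul_assoc, h1, val_reg]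
  have e2 : val R p = val R q * (val R (invW q) * val R p) := by
    rw [← mul_assoc, ← h1, val_reg]
  set f := val R (invW p) * val R q with hf
  set g := val R (invW q) * val R p with hg
  -- `q = p f`, `p = q g`
  have e3 : val R p * f * g = val R p := by rw [← e1, ← e2]
  have e4 : val R p * f = val R p := by
    calc val R p * f = val R p * f * g * f := by rw [e3]
      _ = val R p * f * (g * f) := by rw [mul_assoc]
      _ = val R p * f * (f * g) := by rw [idem_comm h3 h2]
      _ = val R p * (f * f) * g := by simp only [mul_assoc]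
      _ = val R p * f * g := by rw [h2]
      _ = val R p := e3
  rw [e1, e4]

end Basic

section Lift

variable {A : Type} {R : Set (Word A × Word A)} {Z : Type}

/-- partial injections, composed from left to right -/
def PI (Z : Type) : Type := Z ≃. Z

instance : Monoid (PI Z) where
  mul f g := PEquiv.trans f g
  one := PEquiv.refl Z
  mul_assoc f g h := PEquiv.trans_assoc f g h
  one_mul f := PEquiv.refl_trans f
  mul_one f := PEquiv.trans_refl f

theorem PI.mul_def (f g : PI Z) : f * g = PEquiv.trans f g := rfl

theorem PI.reg (f : Z ≃. Z) : (f.trans f.symm).trans f = f := by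
  classical
  rw [PEquiv.self_trans_symm]
  ext x y
  simp only [PEquiv.trans_eq_some, PEquiv.ofSet_eq_some_iff]
  constructor
  · rintro ⟨b, ⟨rfl, -⟩, h⟩
    exact h
  · intro h
    exact ⟨x, ⟨rfl, by simp [h]⟩, h⟩

theorem PI.comm (f g : Z ≃. Z) : (f.trans f.symm).trans (g.trans g.symm) =
    (g.trans g.symm).trans (f.trans f.symm) := by
  classical
  rw [PEquiv.self_trans_symm, PEquiv.self_trans_symm]
  ext x y
  simp only [PEquiv.trans_eq_some, PEquiv.ofSet_eq_some_iff]
  constructor
  · rintro ⟨b, ⟨rfl, h1⟩, ⟨rfl, h2⟩⟩
    exact ⟨_, ⟨rfl, h2⟩, ⟨rfl, h1⟩⟩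
  · rintro ⟨b, ⟨rfl, h1⟩, ⟨rfl, h2⟩⟩
    exact ⟨_, ⟨rfl, h2⟩, ⟨rfl, h1⟩⟩

/-- the partial injection of a word -/
def run (g : A × Bool → Z ≃. Z) (w : Word A) : Z ≃. Z :=
  w.foldr (fun l f => (g l).trans f) (PEquiv.refl Z)

theorem run_nil (g : A × Bool → Z ≃. Z) : run g [] = PEquiv.refl Z := rfl

theorem run_cons (g : A × Bool → Z ≃. Z) (l : A × Bool) (w : Word A) :
    run g (l :: w) = (g l).trans (run g w) := rfl

theorem run_append (g : A × Bool → Z ≃. Z) (u v : Word A) :
    run g (u ++ v) = (run g u).trans (run g v) := by
  induction u with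
  | nil => simp [run_nil]
  | cons l u ih => rw [List.cons_append, run_cons, run_cons, ih, PEquiv.trans_assoc]

theorem run_single (g : A × Bool → Z ≃. Z) (l : A × Bool) : run g [l] = g l := by
  rw [run_cons, run_nil, PEquiv.trans_refl]

theorem run_invW (g : A × Bool → Z ≃. Z) (hg : ∀ a b, g (a, !b) = (g (a, b)).symm) (w : Word A) :
    run g (invW w) = (run g w).symm := by
  induction w with
  | nil => simp [run_nil, invW]
  | cons l w ih =>
    have : invW (l :: w) = invW w ++ [(l.1, !l.2)] := by simp [invW]
    rw [this, run_append, ih, run_single, hg, run_cons, PEquiv.symm_trans_rev]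

/-- an action by partial injections -/
theorem exists_act (g : A × Bool → Z ≃. Z) (hg : ∀ a b, g (a, !b) = (g (a, b)).symm)
    (hR : ∀ u v, (u, v) ∈ R → run g u = run g v) :
    ∃ φ : InvMon R → Z ≃. Z, (∀ w, φ (val R w) = run g w) ∧
      ∀ x y, φ (x * y) = (φ x).trans (φ y) := by
  let F : FreeMonoid (A × Bool) →* PI Z :=
    { toFun := fun w => run g (FreeMonoid.toList w)
      map_one' := rfl
      map_mul' := fun u v => run_append g _ _ }
  have hF : ∀ w : Word A, F (FreeMonoid.ofList w) = run g w := fun w => rfl
  have hle : conGen (Rel R) ≤ Con.ker F := by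
    rw [Con.conGen_le]
    intro x y hxy
    rw [Con.ker_rel]
    cases hxy with
    | reg w =>
      rw [hF, hF, run_append, run_append, run_invW g hg]
      exact PI.reg _
    | comm w z =>
      rw [hF, hF, run_append, run_append, run_append, run_append, run_append, run_append,
        run_invW g hg, run_invW g hg]
      exact PI.comm _ _
    | rel u v h =>
      rw [hF, hF]
      exact hR u v h
  refine ⟨(conGen (Rel R)).lift F hle, fun w => ?_, fun x y => ?_⟩
  · exact Con.lift_coe hle _
  · exact map_mul ((conGen (Rel R)).lift F hle) x y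

end Lift

end Pool.Agent.Q38.IM
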