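import Pool.Agent.Q38.IM.Act

/-!
# Schützenberger graphs; those of our inverse monoid are finite
-/

set_option autoImplicit false

namespace Pool.Agent.Q38.IM

section Defs

variable {A : Type} {R : Set (Word A × Word A)}

/-- `y` can be reached from `x` in the Cayley graph -/
def Reach (x y : InvMon R) : Prop := ∃ u : Word A, y = x * val R u

/-- the strongly connected component of `x` in the Cayley graph -/
def Comp (x : InvMon R) : Set (InvMon R) := {y | Reach x y ∧ Reach y x}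

/-- the Schützenberger graph of `x` (as a simple graph: the component of `x`, with an edge between
different `y` and `z` if `z = y l` or `y = z l` for a letter `l`) -/
def schutz (x : InvMon R) : SimpleGraph (Comp x) :=
  SimpleGraph.fromRel fun y z => ∃ l : A × Bool, (z : InvMon R) = y * val R [l]

/-- the graph is quasi-isometric to a tree -/
def QITree {V : Type} (G : SimpleGraph V) : Prop :=
  ∃ (W : Type) (T : SimpleGraph W) (f : V → W) (L : ℕ), T.IsTree ∧
    (∀ x y, T.dist (f x) (f y) ≤ L * G.dist x y + L ∧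
      G.dist x y ≤ L * T.dist (f x) (f y) + L) ∧ ∀ t, ∃ x, T.dist (f x) t ≤ L

/-- the inverse monoid `Inv⟨A | R⟩` is tree-like -/
def TreeLike (R : Set (Word A × Word A)) : Prop :=
  ∀ x : InvMon R, (schutz x).Connected ∧ QITree (schutz x)

theorem self_mem (x : InvMon R) : x ∈ Comp x :=
  ⟨⟨[], by rw [val_nil, mul_one]⟩, ⟨[], by rw [val_nil, mul_one]⟩⟩

theorem schutz_connected (x : InvMon R) : (schutz x).Connected := by
  have : Nonempty (Comp x) := ⟨⟨x, self_mem x⟩⟩
  -- every prefix of a path which ends in the component stays in the component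
  have key : ∀ u w : Word A, x * val R (u ++ w) ∈ Comp x →
      ∃ h : x * val R u ∈ Comp x, (schutz x).Reachable ⟨x, self_mem x⟩ ⟨x * val R u, h⟩ := by
    intro u
    induction u using List.reverseRecOn with
    | nil =>
      intro w _
      have h0 : x * val R ([] : Word A) = x := by rw [val_nil, mul_one]
      refine ⟨by rw [h0]; exact self_mem x, ?_⟩
      have : (⟨x, self_mem x⟩ : Comp x) = ⟨x * val R [], by rw [h0]; exact self_mem x⟩ :=
        Subtype.ext h0.symm
      rw [this]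
    | append_singleton u l ih =>
      intro w hw
      obtain ⟨h1, h2⟩ := ih ([l] ++ w) (by rwa [← List.append_assoc])
      have h3 : x * val R (u ++ [l]) ∈ Comp x := by
        refine ⟨⟨u ++ [l], rfl⟩, ?_⟩
        obtain ⟨-, v, hv⟩ := hw
        refine ⟨w ++ v, ?_⟩
        calc x = x * val R (u ++ [l] ++ w) * val R v := hv
          _ = x * val R (u ++ [l]) * val R (w ++ v) := by
            rw [val_append (u ++ [l]) w, val_append w v]
            simp only [mul_assoc]
      refine ⟨h3, h2.trans ?_⟩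
      by_cases he : (⟨x * val R u, h1⟩ : Comp x) = ⟨x * val R (u ++ [l]), h3⟩
      · rw [he]
      · refine SimpleGraph.Adj.reachable ?_
        refine (SimpleGraph.fromRel_adj _ _ _).2 ⟨he, Or.inl ⟨l, ?_⟩⟩
        show x * val R (u ++ [l]) = x * val R u * val R [l]
        rw [val_append, mul_assoc]
  refine SimpleGraph.Connected.mk ?_
  have key2 : ∀ y : Comp x, (schutz x).Reachable ⟨x, self_mem x⟩ y := by
    rintro ⟨y, hy⟩
    obtain ⟨u, rfl⟩ := hy.1
    obtain ⟨h, h'⟩ := key u [] (by rwa [List.append_nil])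
    exact h'
  intro y z
  exact (key2 y).symm.trans (key2 z)

/-- a finite graph is quasi-isometric to a point -/
theorem qiTree_of_finite {V : Type} [Finite V] [Nonempty V] (G : SimpleGraph V) : QITree G := by
  have := Fintype.ofFinite V
  refine ⟨Unit, ⊥, fun _ => (), ∑ p : V × V, G.dist p.1 p.2, SimpleGraph.IsTree.of_subsingleton,
    fun x y => ⟨?_, ?_⟩, fun t => ?_⟩
  · rw [SimpleGraph.dist_self]
    exact Nat.zero_le _
  · refine le_trans ?_ (Nat.le_add_left _ _)
    exact Finset.single_le_sum (f := fun p : V × V => G.dist p.1 p.2) (fun _ _ => Nat.zero_le _)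
      (Finset.mem_univ (x, y))
  · obtain ⟨v⟩ := ‹Nonempty V›
    refine ⟨v, ?_⟩
    rw [SimpleGraph.dist_self]
    exact Nat.zero_le _

theorem treeLike_of_finite (h : ∀ x : InvMon R, (Comp x).Finite) : TreeLike R := by
  intro x
  have : Finite (Comp x) := h x
  have : Nonempty (Comp x) := ⟨⟨x, self_mem x⟩⟩
  exact ⟨schutz_connected x, qiTree_of_finite _⟩

end Defs

variable {A : Type} {m : ℕ} (c : A ≃ Fin m ⊕ Fin m ⊕ Bool)

theorem gen_step {K S T : Set (FF m)} {l : A × Bool} {x y : FF m}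
    (h : gen c K S T l x = some y) : y = x * sg c [l] ∧ (x ∈ K → y ∈ K) := by
  classical
  rcases letter_cases c l with ⟨i, b, rfl⟩ | ⟨i, b, rfl⟩ | ⟨b, rfl⟩ | ⟨b, rfl⟩
  · rw [gen_la, mv_eq_some] at h
    rw [sg_la]
    exact ⟨h.2.symm, fun _ => h.2 ▸ h.1.2⟩
  · rw [gen_lb, mv_eq_some] at h
    rw [sg_lb]
    exact ⟨h.2.symm, fun _ => h.2 ▸ h.1.2⟩
  · rw [gen_ls, PEquiv.ofSet_eq_some_iff] at h
    rw [sg_ls, mul_one]
    exact ⟨h.1, fun hx => h.1 ▸ hx⟩
  · rw [gen_lt, PEquiv.ofSet_eq_some_iff] at h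
    rw [sg_lt, mul_one]
    exact ⟨h.1, fun hx => h.1 ▸ hx⟩

theorem run_step {K S T : Set (FF m)} {v : Word A} {x y : FF m}
    (h : run (gen c K S T) v x = some y) : y = x * sg c v ∧ (x ∈ K → y ∈ K) := by
  induction v generalizing x with
  | nil =>
    rw [run_nil, PEquiv.refl_apply, Option.some.injEq] at h
    subst h
    rw [sg_nil, mul_one]
    exact ⟨rfl, fun h => h⟩
  | cons l v ih =>
    rw [run_cons, PEquiv.trans_eq_some] at h
    obtain ⟨z, h1, h2⟩ := h
    obtain ⟨h3, h4⟩ := gen_step c h1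
    obtain ⟨h5, h6⟩ := ih h2
    have : l :: v = [l] ++ v := rfl
    rw [this, sg_append, ← mul_assoc, ← h3]
    exact ⟨h5, fun h => h6 (h4 h)⟩

/-- the places visited by a word -/
def K1 (w : Word A) : Set (FreeGroup (Fin m)) := {g | ∃ v, v <+: w ∧ FreeGroup.mk (p1 c v) = g}
def K2 (w : Word A) : Set (FreeGroup (Fin m)) := {g | ∃ v, v <+: w ∧ FreeGroup.mk (p2 c v) = g}
def SS (w : Word A) : Set (FF m) := {g | ∃ v b, v ++ [ls c b] <+: w ∧ sg c v = g}
def TT (w : Word A) : Set (FF m) := {g | ∃ v b, v ++ [lt c b] <+: w ∧ sg c v = g}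

theorem prefix_finite (w : Word A) : {v : Word A | v <+: w}.Finite := by
  refine (List.finite_toSet w.inits).subset fun v hv => ?_
  exact (List.mem_inits _ _).2 hv

theorem K1_finite (w : Word A) : (K1 c w).Finite := by
  have : K1 c w = (fun v => FreeGroup.mk (p1 c v)) '' {v : Word A | v <+: w} := by
    ext g
    rfl
  rw [this]
  exact (prefix_finite w).image _

theorem K2_finite (w : Word A) : (K2 c w).Finite := by
  have : K2 c w = (fun v => FreeGroup.mk (p2 c v)) '' {v : Word A | v <+: w} := by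
    ext g
    rfl
  rw [this]
  exact (prefix_finite w).image _

theorem disj_of_ne {w : Word A} (h : vl c w ≠ zz c) : Disjoint (SS c w) (TT c w) := by
  rw [Set.disjoint_left]
  rintro g ⟨u, b, ⟨u2, hu⟩, h1⟩ ⟨v, b', ⟨v2, hv⟩, h2⟩
  refine h (zero_of_clash c (u1 := u) (u2 := u2) (v1 := v) (v2 := v2) (b := b) (b' := b') ?_ ?_
    (h1.trans h2.symm))
  · rw [← hu]; simp
  · rw [← hv]; simp

theorem run_prefix (w v : Word A) (h : v <+: w) :
    run (gen c (K1 c w ×ˢ K2 c w) (SS c w) (TT c w)) v 1 = some (sg c v) := by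
  classical
  induction v using List.reverseRecOn with
  | nil => rw [run_nil, PEquiv.refl_apply, sg_nil]
  | append_singleton v l ih =>
    have h1 : v <+: w := (List.prefix_append v [l]).trans h
    rw [run_append, PEquiv.trans_eq_some]
    refine ⟨_, ih h1, ?_⟩
    rw [run_single, sg_append]
    have hv : sg c v ∈ K1 c w ×ˢ K2 c w := ⟨⟨v, h1, rfl⟩, ⟨v, h1, rfl⟩⟩
    have hvl : sg c (v ++ [l]) ∈ K1 c w ×ˢ K2 c w := ⟨⟨_, h, rfl⟩, ⟨_, h, rfl⟩⟩
    rw [sg_append] at hvl
    rcases letter_cases c l with ⟨i, b, rfl⟩ | ⟨i, b, rfl⟩ | ⟨b, rfl⟩ | ⟨b, rfl⟩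
    · rw [gen_la, mv_eq_some, ← sg_la c]
      exact ⟨⟨hv, hvl⟩, rfl⟩
    · rw [gen_lb, mv_eq_some, ← sg_lb c]
      exact ⟨⟨hv, hvl⟩, rfl⟩
    · rw [gen_ls, PEquiv.ofSet_eq_some_iff, sg_ls, mul_one]
      exact ⟨rfl, ⟨v, b, h, rfl⟩⟩
    · rw [gen_lt, PEquiv.ofSet_eq_some_iff, sg_lt, mul_one]
      exact ⟨rfl, ⟨v, b, h, rfl⟩⟩

theorem comp_finite (x : InvMon (rels c)) : (Comp x).Finite := by
  by_cases hx : x = zz c
  · subst hx
    refine (Set.finite_singleton (zz c)).subset ?_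
    rintro y ⟨⟨u, rfl⟩, -⟩
    rw [zz_mul]
    rfl
  · obtain ⟨w, rfl⟩ := val_surj x
    obtain ⟨φ, h1, h2, -⟩ := exists_rep c (K1 c w) (K2 c w) (SS c w) (TT c w) (disj_of_ne c hx)
    have hK : ((K1 c w) ×ˢ (K2 c w)).Finite := (K1_finite c w).prod (K2_finite c w)
    have hK1 : (1 : FF m) ∈ (K1 c w) ×ˢ (K2 c w) :=
      ⟨⟨[], List.nil_prefix, rfl⟩, ⟨[], List.nil_prefix, rfl⟩⟩
    have key : ∀ p : Word A, vl c p ∈ Comp (vl c w) →
        φ (vl c p) 1 = some (sg c p) ∧ sg c p ∈ (K1 c w) ×ˢ (K2 c w) := by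
      rintro p ⟨⟨u, hu⟩, ⟨u', hu'⟩⟩
      have h3 : φ (vl c w) 1 = some (sg c w) := by
        rw [h1]
        exact run_prefix c w w List.prefix_rfl
      rw [hu', h2, PEquiv.trans_eq_some] at h3
      obtain ⟨z, h4, -⟩ := h3
      have h5 := h4
      rw [h1] at h5
      obtain ⟨h6, h7⟩ := run_step c h5
      rw [one_mul] at h6
      rw [← h6]
      exact ⟨h4, h7 hK1⟩
    refine Set.Finite.of_injOn (f := fun y => φ y 1) (t := some '' ((K1 c w) ×ˢ (K2 c w)))
      ?_ ?_ (hK.image _)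
    · intro y hy
      obtain ⟨p, rfl⟩ := val_surj y
      obtain ⟨h3, h4⟩ := key p hy
      exact ⟨_, h4, h3.symm⟩
    · intro y hy y' hy' h
      obtain ⟨p, rfl⟩ := val_surj y
      obtain ⟨p', rfl⟩ := val_surj y'
      obtain ⟨h3, h4⟩ := key p hy
      obtain ⟨h5, h6⟩ := key p' hy'
      have h : φ (vl c p) 1 = φ (vl c p') 1 := h
      rw [h3, h5, Option.some.injEq] at h
      refine eq_of_dom_sg c ?_ h
      obtain ⟨⟨u1, e1⟩, ⟨u2, e2⟩⟩ := hy
      obtain ⟨⟨u3, e3⟩, ⟨u4, e4⟩⟩ := hy'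
      exact (dom_eq c e1 e2).symm.trans (dom_eq c e3 e4)

theorem treeLike : TreeLike (rels c) := treeLike_of_finite (comp_finite c)

end Pool.Agent.Q38.IM
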