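import Pool.Agent.Q38.IM.Pres

/-!
# Actions of the inverse monoid by partial right multiplications
-/

set_option autoImplicit false

namespace Pool.Agent.Q38.IM

open Classical in
/-- right multiplication by `x`, restricted to `K` -/
noncomputable def mv {G : Type} [Group G] (K : Set G) (x : G) : G ≃. G where
  toFun z := if z ∈ K ∧ z * x ∈ K then some (z * x) else none
  invFun z := if z ∈ K ∧ z * x⁻¹ ∈ K then some (z * x⁻¹) else none
  inv a b := by
    simp only [Option.ite_none_right_eq_some, Option.some.injEq]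
    constructor
    · rintro ⟨⟨h1, h2⟩, rfl⟩
      refine ⟨⟨h2, ?_⟩, by group⟩
      simpa using h1
    · rintro ⟨⟨h1, h2⟩, rfl⟩
      refine ⟨⟨h2, ?_⟩, by group⟩
      simpa using h1

theorem mv_eq_some {G : Type} [Group G] {K : Set G} {x z y : G} :
    mv K x z = some y ↔ (z ∈ K ∧ z * x ∈ K) ∧ z * x = y := by
  classical
  show (if z ∈ K ∧ z * x ∈ K then some (z * x) else none) = some y ↔ _
  rw [Option.ite_none_right_eq_some, Option.some.injEq]

theorem mv_symm {G : Type} [Group G] (K : Set G) (x : G) : (mv K x).symm = mv K x⁻¹ := by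
  ext z y
  rw [PEquiv.eq_some_iff, mv_eq_some, mv_eq_some]
  constructor
  · rintro ⟨⟨h1, h2⟩, rfl⟩
    refine ⟨⟨h2, ?_⟩, by group⟩
    simpa using h1
  · rintro ⟨⟨h1, h2⟩, rfl⟩
    refine ⟨⟨h2, ?_⟩, by group⟩
    simpa using h1

variable {A : Type} {m : ℕ} (c : A ≃ Fin m ⊕ Fin m ⊕ Bool)

abbrev FF (m : ℕ) : Type := FreeGroup (Fin m) × FreeGroup (Fin m)

open Classical in
/-- the action of the letters: multiplication restricted to `K`, `s` and `t` are the identities of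
`S` and `T` -/
noncomputable def gen (K S T : Set (FF m)) (l : A × Bool) : FF m ≃. FF m :=
  match c l.1 with
  | Sum.inl _ => mv K (sg c [l])
  | Sum.inr (Sum.inl _) => mv K (sg c [l])
  | Sum.inr (Sum.inr true) => PEquiv.ofSet S
  | Sum.inr (Sum.inr false) => PEquiv.ofSet T

theorem gen_la (K S T : Set (FF m)) (i : Fin m) (b : Bool) :
    gen c K S T (la c i b) = mv K (FreeGroup.mk [(i, b)], 1) := by
  rw [← sg_la c]
  unfold gen
  simp [la]

theorem gen_lb (K S T : Set (FF m)) (i : Fin m) (b : Bool) :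
    gen c K S T (lb c i b) = mv K (1, FreeGroup.mk [(i, b)]) := by
  rw [← sg_lb c]
  unfold gen
  simp [lb]

open Classical in
theorem gen_ls (K S T : Set (FF m)) (b : Bool) : gen c K S T (ls c b) = PEquiv.ofSet S := by
  unfold gen
  simp [ls]

open Classical in
theorem gen_lt (K S T : Set (FF m)) (b : Bool) : gen c K S T (lt c b) = PEquiv.ofSet T := by
  unfold gen
  simp [lt]

theorem gen_inv (K S T : Set (FF m)) (a : A) (b : Bool) :
    gen c K S T (a, !b) = (gen c K S T (a, b)).symm := by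
  classical
  rcases letter_cases c (a, b) with ⟨i, b', h⟩ | ⟨i, b', h⟩ | ⟨b', h⟩ | ⟨b', h⟩
  · have h1 : (a, !b) = la c i (!b') := by
      have := congrArg Prod.fst h
      have := congrArg Prod.snd h
      simp_all [la]
    rw [h, h1, gen_la, gen_la, mv_symm, Prod.inv_mk, inv_one, mk_inv_single]
  · have h1 : (a, !b) = lb c i (!b') := by
      have := congrArg Prod.fst h
      have := congrArg Prod.snd h
      simp_all [lb]
    rw [h, h1, gen_lb, gen_lb, mv_symm, Prod.inv_mk, inv_one, mk_inv_single]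
  · have h1 : (a, !b) = ls c (!b') := by
      have := congrArg Prod.fst h
      have := congrArg Prod.snd h
      simp_all [ls]
    rw [h, h1, gen_ls, gen_ls, PEquiv.ofSet_symm]
  · have h1 : (a, !b) = lt c (!b') := by
      have := congrArg Prod.fst h
      have := congrArg Prod.snd h
      simp_all [lt]
    rw [h, h1, gen_lt, gen_lt, PEquiv.ofSet_symm]

/-- the relations hold for a product set `K` and disjoint sets `S`, `T` -/
theorem exists_rep (K₁ K₂ : Set (FreeGroup (Fin m))) (S T : Set (FF m)) (hST : Disjoint S T) :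
    ∃ φ : InvMon (rels c) → FF m ≃. FF m,
      (∀ w, φ (vl c w) = run (gen c (K₁ ×ˢ K₂) S T) w) ∧
      (∀ x y, φ (x * y) = (φ x).trans (φ y)) ∧ φ (zz c) = ⊥ := by
  classical
  have hz : run (gen c (K₁ ×ˢ K₂) S T) [ls c true, lt c true] = ⊥ := by
    rw [run_cons, run_single, gen_ls, gen_lt]
    ext z y
    rw [PEquiv.trans_eq_some]
    simp only [PEquiv.ofSet_eq_some_iff, PEquiv.bot_apply]
    constructor
    · rintro ⟨b, ⟨rfl, h1⟩, ⟨rfl, h2⟩⟩
      exact absurd h2 (Set.disjoint_left.1 hST h1)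
    · intro h
      simp at h
  have hR : ∀ u v, (u, v) ∈ rels c →
      run (gen c (K₁ ×ˢ K₂) S T) u = run (gen c (K₁ ×ˢ K₂) S T) v := by
    rintro u v (((⟨⟨⟨i, b⟩, ⟨j, b'⟩⟩, hp⟩ | (hp | hp)) | ⟨x, hp⟩) | ⟨x, hp⟩)
    · simp only [Prod.mk.injEq] at hp
      obtain ⟨rfl, rfl⟩ := hp
      rw [run_cons, run_single, run_cons, run_single, gen_la, gen_lb]
      ext z y
      rw [PEquiv.trans_eq_some, PEquiv.trans_eq_some]
      simp only [mv_eq_some]
      obtain ⟨z1, z2⟩ := z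
      constructor
      · rintro ⟨-, ⟨⟨h1, h2⟩, rfl⟩, ⟨h3, h4⟩, rfl⟩
        simp only [Prod.mk_mul_mk, Set.mem_prod, mul_one] at h1 h2 h3 h4 ⊢
        exact ⟨_, ⟨⟨h1, ⟨h1.1, h4.2⟩⟩, rfl⟩, ⟨⟨⟨h1.1, h4.2⟩, by simpa using h4⟩, by simp⟩⟩
      · rintro ⟨-, ⟨⟨h1, h2⟩, rfl⟩, ⟨h3, h4⟩, rfl⟩
        simp only [Prod.mk_mul_mk, Set.mem_prod, mul_one] at h1 h2 h3 h4 ⊢
        exact ⟨_, ⟨⟨h1, ⟨h4.1, h1.2⟩⟩, rfl⟩, ⟨⟨⟨h4.1, h1.2⟩, by simpa using h4⟩, by simp⟩⟩
    · rw [Prod.mk.injEq] at hp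
      obtain ⟨rfl, rfl⟩ := hp
      rw [run_cons, run_single, gen_ls]
      ext z y
      rw [PEquiv.trans_eq_some]
      simp only [PEquiv.ofSet_eq_some_iff]
      constructor
      · rintro ⟨b, ⟨rfl, h1⟩, h2⟩
        exact h2
      · rintro ⟨rfl, h1⟩
        exact ⟨_, ⟨rfl, h1⟩, ⟨rfl, h1⟩⟩
    · rw [Set.mem_singleton_iff, Prod.mk.injEq] at hp
      obtain ⟨rfl, rfl⟩ := hp
      rw [run_cons, run_single, gen_lt]
      ext z y
      rw [PEquiv.trans_eq_some]
      simp only [PEquiv.ofSet_eq_some_iff]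
      constructor
      · rintro ⟨b, ⟨rfl, h1⟩, h2⟩
        exact h2
      · rintro ⟨rfl, h1⟩
        exact ⟨_, ⟨rfl, h1⟩, ⟨rfl, h1⟩⟩
    · simp only [Prod.mk.injEq] at hp
      obtain ⟨rfl, rfl⟩ := hp
      have : [ls c true, lt c true, x] = [ls c true, lt c true] ++ [x] := rfl
      rw [this, run_append, hz, PEquiv.bot_trans]
    · simp only [Prod.mk.injEq] at hp
      obtain ⟨rfl, rfl⟩ := hp
      rw [run_cons, hz, PEquiv.trans_bot]
  obtain ⟨φ, h1, h2⟩ := exists_act (R := rels c) (gen c (K₁ ×ˢ K₂) S T)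
    (gen_inv c (K₁ ×ˢ K₂) S T) hR
  refine ⟨φ, h1, h2, ?_⟩
  have : φ (vl c [ls c true, lt c true]) = _ := h1 _
  rw [hz] at this
  exact this

end Pool.Agent.Q38.IM
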