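import Pool.Agent.Q38.IM.Reduce

/-!
# The membership problems and the reduction
-/

set_option autoImplicit false

namespace Pool.Agent.Q38.IM

section Defs

variable {A : Type}

/-- (b) the value of a word is in the submonoid generated by the values of the words of a list -/
def SubmonoidMem (R : Set (Word A × Word A)) (p : List (Word A) × Word A) : Prop :=
  val R p.2 ∈ Submonoid.closure (vals R p.1)

/-- (c) the same for the inverse submonoid -/
def InvSubmonoidMem (R : Set (Word A × Word A)) (p : List (Word A) × Word A) : Prop :=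
  ∀ N : Submonoid (InvMon R), vals R p.1 ⊆ N → InvClosed N → val R p.2 ∈ N

/-- (d) the same for the closed inverse submonoid -/
def ClosedInvSubmonoidMem (R : Set (Word A × Word A)) (p : List (Word A) × Word A) : Prop :=
  ∀ N : Submonoid (InvMon R), vals R p.1 ⊆ N → InvClosed N → UpClosed N → val R p.2 ∈ N

/-- paths of an automaton whose transitions are given by a list -/
inductive Path (T : List (ℕ × (A × Bool) × ℕ)) : ℕ → Word A → ℕ → Prop
  | nil (p : ℕ) : Path T p [] p
  | cons (p q r : ℕ) (l : A × Bool) (w : Word A) (h : (p, l, q) ∈ T) (h' : Path T q w r) :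
      Path T p (l :: w) r

/-- a finite automaton: the lists of initial states, of final states and of transitions -/
abbrev Aut (A : Type) : Type := List ℕ × List ℕ × List (ℕ × (A × Bool) × ℕ)

/-- the automaton accepts the word -/
def Accepts (a : Aut A) (w : Word A) : Prop := ∃ p ∈ a.1, ∃ q ∈ a.2.1, Path a.2.2 p w q

/-- (a) the value of a word is in the image of the language of an automaton -/
def RationalMem (R : Set (Word A × Word A)) (p : Aut A × Word A) : Prop :=
  ∃ v, Accepts p.1 v ∧ val R v = val R p.2

end Defs

section Star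

variable {A : Type} [Primcodable A]

/-- the transitions which read off a word -/
def trs (x : Word A) : List (ℕ × (A × Bool) × ℕ) :=
  List.recOn x [] fun l v IH => (Encodable.encode (l :: v), l, Encodable.encode v) :: IH

/-- the first transition -/
def fst1 (x : Word A) : List (ℕ × (A × Bool) × ℕ) :=
  List.casesOn x [] fun l v => [(Encodable.encode ([] : Word A), l, Encodable.encode v)]

/-- an automaton for the language of the products of words of `X` -/
def star (X : List (Word A)) : Aut A :=
  ([Encodable.encode ([] : Word A)], [Encodable.encode ([] : Word A)],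
    X.flatMap fun x => fst1 x ++ trs x)

theorem mem_trs {x : Word A} {t : ℕ × (A × Bool) × ℕ} :
    t ∈ trs x ↔ ∃ l v, (l :: v) <:+ x ∧ t = (Encodable.encode (l :: v), l, Encodable.encode v) := by
  induction x with
  | nil =>
    have : trs ([] : Word A) = [] := rfl
    rw [this]
    simp
  | cons l x ih =>
    have : trs (l :: x) = (Encodable.encode (l :: x), l, Encodable.encode x) :: trs x := rfl
    rw [this, List.mem_cons, ih]
    constructor
    · rintro (h | ⟨l', v, h1, h2⟩)
      · exact ⟨l, x, List.suffix_rfl, h⟩
      · exact ⟨l', v, h1.trans (List.suffix_cons l x), h2⟩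
    · rintro ⟨l', v, h1, h2⟩
      rw [List.suffix_cons_iff] at h1
      rcases h1 with h1 | h1
      · rw [List.cons.injEq] at h1
        obtain ⟨rfl, rfl⟩ := h1
        exact Or.inl h2
      · exact Or.inr ⟨l', v, h1, h2⟩

theorem mem_fst1 {x : Word A} {t : ℕ × (A × Bool) × ℕ} :
    t ∈ fst1 x ↔ ∃ l v, x = l :: v ∧ t = (Encodable.encode ([] : Word A), l, Encodable.encode v) := by
  cases x with
  | nil =>
    have : fst1 ([] : Word A) = [] := rfl
    rw [this]
    simp
  | cons l x =>
    have : fst1 (l :: x) = [(Encodable.encode ([] : Word A), l, Encodable.encode x)] := rfl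
    rw [this, List.mem_singleton]
    constructor
    · intro h
      exact ⟨l, x, rfl, h⟩
    · rintro ⟨l', v, h1, h2⟩
      rw [List.cons.injEq] at h1
      obtain ⟨rfl, rfl⟩ := h1
      exact h2

theorem path_of_suffix {X : List (Word A)} {x : Word A} (hx : x ∈ X) (v : Word A) (hv : v <:+ x) :
    Path (star X).2.2 (Encodable.encode v) v (Encodable.encode ([] : Word A)) := by
  induction v with
  | nil => exact Path.nil _
  | cons l v ih =>
    refine Path.cons _ (Encodable.encode v) _ l v ?_ (ih ((List.suffix_cons l v).trans hv))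
    exact List.mem_flatMap.2 ⟨x, hx, List.mem_append.2 (Or.inr (mem_trs.2 ⟨l, v, hv, rfl⟩))⟩

omit [Primcodable A] in
theorem path_append {T : List (ℕ × (A × Bool) × ℕ)} {p q r : ℕ} {u v : Word A}
    (h1 : Path T p u q) (h2 : Path T q v r) : Path T p (u ++ v) r := by
  induction h1 with
  | nil p => exact h2
  | cons p q' r' l w h h' ih => exact Path.cons p q' r l _ h (ih h2)

theorem path_star {X : List (Word A)} (y : List (Word A)) (hy : ∀ x ∈ y, x ∈ X) :
    Path (star X).2.2 (Encodable.encode ([] : Word A)) y.flatten (Encodable.encode ([] : Word A)) := by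
  induction y with
  | nil => exact Path.nil _
  | cons x y ih =>
    rw [List.flatten_cons]
    refine path_append ?_ (ih fun z hz => hy z (List.mem_cons_of_mem _ hz))
    have hx : x ∈ X := hy x List.mem_cons_self
    cases x with
    | nil => exact Path.nil _
    | cons l v =>
      refine Path.cons _ (Encodable.encode v) _ l v ?_
        (path_of_suffix hx v (List.suffix_cons l v))
      exact List.mem_flatMap.2 ⟨_, hx, List.mem_append.2 (Or.inl (mem_fst1.2 ⟨l, v, rfl, rfl⟩))⟩

theorem star_path {X : List (Word A)} {p q : ℕ} {w : Word A} (h : Path (star X).2.2 p w q)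
    (v : Word A) (hp : p = Encodable.encode v) (hq : q = Encodable.encode ([] : Word A)) :
    ∃ y : List (Word A), (∀ x ∈ y, x ∈ X) ∧ w = v ++ y.flatten := by
  induction h generalizing v with
  | nil p =>
    have : v = [] := Encodable.encode_injective (hp.symm.trans hq)
    subst this
    exact ⟨[], by simp, rfl⟩
  | cons p q r l w h h' ih =>
    obtain ⟨x, hx, h⟩ := List.mem_flatMap.1 h
    rcases List.mem_append.1 h with h | h
    · obtain ⟨l', v', h1, h2⟩ := mem_fst1.1 h
      simp only [Prod.mk.injEq] at h2
      obtain ⟨h3, h4, h5⟩ := h2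
      have : v = [] := Encodable.encode_injective (hp.symm.trans h3)
      subst this
      obtain ⟨y, hy, h6⟩ := ih v' h5 hq
      refine ⟨x :: y, ?_, ?_⟩
      · intro z hz
        rcases List.mem_cons.1 hz with rfl | hz
        · exact hx
        · exact hy z hz
      · rw [h6, h1, h4]
        rfl
    · obtain ⟨l', v', h1, h2⟩ := mem_trs.1 h
      simp only [Prod.mk.injEq] at h2
      obtain ⟨h3, h4, h5⟩ := h2
      have : v = l' :: v' := Encodable.encode_injective (hp.symm.trans h3)
      subst this
      obtain ⟨y, hy, h6⟩ := ih v' h5 hq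
      refine ⟨y, hy, ?_⟩
      rw [h6, h4]
      rfl

theorem accepts_star {X : List (Word A)} {w : Word A} :
    Accepts (star X) w ↔ ∃ y : List (Word A), (∀ x ∈ y, x ∈ X) ∧ w = y.flatten := by
  constructor
  · rintro ⟨p, hp, q, hq, h⟩
    have hp : p = Encodable.encode ([] : Word A) := List.mem_singleton.1 hp
    have hq : q = Encodable.encode ([] : Word A) := List.mem_singleton.1 hq
    exact star_path h [] hp hq
  · rintro ⟨y, hy, rfl⟩
    exact ⟨_, List.mem_singleton.2 rfl, _, List.mem_singleton.2 rfl, path_star y hy⟩

omit [Primcodable A] in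
theorem val_flatten (R : Set (Word A × Word A)) (y : List (Word A)) :
    val R y.flatten = (y.map (val R)).prod := by
  induction y with
  | nil => rfl
  | cons x y ih => rw [List.flatten_cons, val_append, ih, List.map_cons, List.prod_cons]

theorem rational_iff (R : Set (Word A × Word A)) (X : List (Word A)) (w : Word A) :
    RationalMem R (star X, w) ↔ SubmonoidMem R (X, w) := by
  constructor
  · rintro ⟨v, hv, h⟩
    obtain ⟨y, hy, rfl⟩ := accepts_star.1 hv
    show val R w ∈ _
    have h : val R y.flatten = val R w := h
    rw [← h, val_flatten]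
    refine Submonoid.list_prod_mem _ ?_
    intro x hx
    obtain ⟨z, hz, rfl⟩ := List.mem_map.1 hx
    exact Submonoid.subset_closure ⟨z, hy z hz, rfl⟩
  · intro h
    have h : val R w ∈ Submonoid.closure (vals R X) := h
    obtain ⟨l, hl, h1⟩ := Submonoid.exists_list_of_mem_closure h
    have : ∀ l : List (InvMon R), (∀ x ∈ l, x ∈ vals R X) →
        ∃ y : List (Word A), (∀ x ∈ y, x ∈ X) ∧ (y.map (val R)).prod = l.prod := by
      intro l
      induction l with
      | nil => intro _; exact ⟨[], by simp, rfl⟩
      | cons a l ih =>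
        intro hl
        obtain ⟨y, hy, h2⟩ := ih fun x hx => hl x (List.mem_cons_of_mem _ hx)
        obtain ⟨u, hu, rfl⟩ := hl a List.mem_cons_self
        refine ⟨u :: y, ?_, ?_⟩
        · intro z hz
          rcases List.mem_cons.1 hz with rfl | hz
          · exact hu
          · exact hy z hz
        · rw [List.map_cons, List.prod_cons, h2, List.prod_cons]
    obtain ⟨y, hy, h2⟩ := this l hl
    refine ⟨y.flatten, accepts_star.2 ⟨y, hy, rfl⟩, ?_⟩
    show val R y.flatten = val R w
    rw [val_flatten, h2, h1]

theorem trs_primrec : Primrec (trs (A := A)) := by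
  have h := Primrec.list_rec (α := Word A) (β := A × Bool) (σ := List (ℕ × (A × Bool) × ℕ))
    (f := fun x => x) (g := fun _ => [])
    (h := fun _ p => (Encodable.encode (p.1 :: p.2.1), p.1, Encodable.encode p.2.1) :: p.2.2)
    Primrec.id (Primrec.const _) ?_
  · exact h
  · have h1 : Primrec (fun q : Word A × ((A × Bool) × Word A × List (ℕ × (A × Bool) × ℕ)) =>
        q.2.1) := Primrec.fst.comp Primrec.snd
    have h2 : Primrec (fun q : Word A × ((A × Bool) × Word A × List (ℕ × (A × Bool) × ℕ)) =>
        q.2.2.1) := Primrec.fst.comp (Primrec.snd.comp Primrec.snd)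
    have h3 : Primrec (fun q : Word A × ((A × Bool) × Word A × List (ℕ × (A × Bool) × ℕ)) =>
        q.2.2.2) := Primrec.snd.comp (Primrec.snd.comp Primrec.snd)
    exact Primrec.list_cons.comp
      (Primrec.pair (Primrec.encode.comp (Primrec.list_cons.comp h1 h2))
        (Primrec.pair h1 (Primrec.encode.comp h2))) h3

theorem fst1_primrec : Primrec (fst1 (A := A)) := by
  have h := Primrec.list_casesOn (α := Word A) (β := A × Bool) (σ := List (ℕ × (A × Bool) × ℕ))
    (f := fun x => x) (g := fun _ => [])
    (h := fun _ p => [(Encodable.encode ([] : Word A), p.1, Encodable.encode p.2)])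
    Primrec.id (Primrec.const _) ?_
  · exact h
  · have h1 : Primrec (fun q : Word A × ((A × Bool) × Word A) => q.2.1) :=
      Primrec.fst.comp Primrec.snd
    have h2 : Primrec (fun q : Word A × ((A × Bool) × Word A) => q.2.2) :=
      Primrec.snd.comp Primrec.snd
    exact Primrec.list_cons.comp
      (Primrec.pair (Primrec.const _) (Primrec.pair h1 (Primrec.encode.comp h2)))
      (Primrec.const [])

theorem star_primrec : Primrec (star (A := A)) := by
  refine Primrec.pair (Primrec.const _) (Primrec.pair (Primrec.const _) ?_)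
  refine Primrec.list_flatMap Primrec.id ?_
  exact Primrec.list_append.comp (fst1_primrec.comp Primrec.snd) (trs_primrec.comp Primrec.snd)

end Star

section Red

variable {k m : ℕ} (c : Fin k ≃ Fin m ⊕ Fin m ⊕ Bool)

theorem e2_primrec : Primrec (e2 c) := by
  have h : Primrec (fun p : Fin m × Bool => lb c p.1 p.2) := Primrec.dom_finite _
  exact Primrec.list_map Primrec.id (h.comp Primrec.snd).to₂

theorem invW_primrec : Primrec (invW (A := Fin k)) := by
  have h : Primrec (fun p : Fin k × Bool => (p.1, !p.2)) := Primrec.dom_finite _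
  exact Primrec.list_reverse.comp (Primrec.list_map Primrec.id (h.comp Primrec.snd).to₂)

theorem XX_primrec (R : Finset (FreeGroup (Fin m))) : Primrec (XX c R) := by
  have h1 : Primrec (fun w => e2 c w ++ [lt c true] ++ invW (e2 c w)) :=
    Primrec.list_append.comp
      (Primrec.list_append.comp (e2_primrec c) (Primrec.const [lt c true]))
      ((invW_primrec).comp (e2_primrec c))
  exact Primrec.list_append.comp (Primrec.const (fixedX c R))
    (Primrec.list_cons.comp h1 (Primrec.const []))

/-- the target word -/
abbrev zw : Word (Fin k) := [ls c true, lt c true]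

theorem mem_iff (R : Finset (FreeGroup (Fin m))) (w : List (Fin m × Bool)) :
    (SubmonoidMem (rels c) (XX c R w, zw c) ↔
      FreeGroup.mk w ∈ Subgroup.normalClosure (R : Set (FreeGroup (Fin m)))) ∧
    (InvSubmonoidMem (rels c) (XX c R w, zw c) ↔
      FreeGroup.mk w ∈ Subgroup.normalClosure (R : Set (FreeGroup (Fin m)))) ∧
    (ClosedInvSubmonoidMem (rels c) (XX c R w, zw c) ↔
      FreeGroup.mk w ∈ Subgroup.normalClosure (R : Set (FreeGroup (Fin m)))) := by
  by_cases hw : FreeGroup.mk w ∈ Subgroup.normalClosure (R : Set (FreeGroup (Fin m)))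
  · have h1 : zz c ∈ Submonoid.closure (vals (rels c) (XX c R w)) :=
      zz_mem c R w ((mem_HH_iff R _).2 hw)
    refine ⟨⟨fun _ => hw, fun _ => h1⟩, ⟨fun _ => hw, fun _ N hN _ => ?_⟩,
      ⟨fun _ => hw, fun _ N hN _ _ => ?_⟩⟩
    · exact (Submonoid.closure_le.2 hN) h1
    · exact (Submonoid.closure_le.2 hN) h1
  · obtain ⟨N, h1, h2, h3, h4⟩ := exists_sub c R w fun h => hw ((mem_HH_iff R _).1 h)
    refine ⟨⟨fun h => ?_, fun h => absurd h hw⟩, ⟨fun h => ?_, fun h => absurd h hw⟩,
      ⟨fun h => ?_, fun h => absurd h hw⟩⟩
    · exact absurd ((Submonoid.closure_le.2 h1) h) h4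
    · exact absurd (h N h1 h2) h4
    · exact absurd (h N h1 h2 h3) h4

end Red

end Pool.Agent.Q38.IM
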