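import Pool.Agent.Q38.IM.Basic

/-!
# The inverse monoid `(FIM(m) × FIM(m)) * ⟨s, t⟩` with `s² = s`, `t² = t`, `s t = 0`
-/

set_option autoImplicit false

namespace Pool.Agent.Q38.IM

variable {A : Type} {m : ℕ} (c : A ≃ Fin m ⊕ Fin m ⊕ Bool)

/-- the letters of the first factor -/
def la (i : Fin m) (b : Bool) : A × Bool := (c.symm (Sum.inl i), b)
/-- the letters of the second factor -/
def lb (i : Fin m) (b : Bool) : A × Bool := (c.symm (Sum.inr (Sum.inl i)), b)
/-- the letter `s` -/
def ls (b : Bool) : A × Bool := (c.symm (Sum.inr (Sum.inr true)), b)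
/-- the letter `t` -/
def lt (b : Bool) : A × Bool := (c.symm (Sum.inr (Sum.inr false)), b)

/-- the relations: the letters of the two factors (and their inverses) commute, `s` and `t` are
idempotent and `s t` is a zero -/
def rels : Set (Word A × Word A) :=
  Set.range (fun p : (Fin m × Bool) × (Fin m × Bool) =>
      ([la c p.1.1 p.1.2, lb c p.2.1 p.2.2], [lb c p.2.1 p.2.2, la c p.1.1 p.1.2])) ∪
    {([ls c true, ls c true], [ls c true]), ([lt c true, lt c true], [lt c true])} ∪
    Set.range (fun x : A × Bool => ([ls c true, lt c true, x], [ls c true, lt c true])) ∪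
    Set.range (fun x : A × Bool => ([x, ls c true, lt c true], [ls c true, lt c true]))

theorem rels_finite : (rels c).Finite := by
  have : Finite A := Finite.of_equiv _ c.symm
  unfold rels
  refine (((Set.finite_range _).union ?_).union (Set.finite_range _)).union (Set.finite_range _)
  exact Set.toFinite _

theorem letter_cases (l : A × Bool) : (∃ i b, l = la c i b) ∨ (∃ i b, l = lb c i b) ∨
    (∃ b, l = ls c b) ∨ ∃ b, l = lt c b := by
  obtain ⟨a, b⟩ := l
  rcases h : c a with i | i | _ | _
  · exact Or.inl ⟨i, b, by rw [la, ← h, Equiv.symm_apply_apply]⟩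
  · exact Or.inr (Or.inl ⟨i, b, by rw [lb, ← h, Equiv.symm_apply_apply]⟩)
  · exact Or.inr (Or.inr (Or.inr ⟨b, by rw [lt, ← h, Equiv.symm_apply_apply]⟩))
  · exact Or.inr (Or.inr (Or.inl ⟨b, by rw [ls, ← h, Equiv.symm_apply_apply]⟩))

/-- the value of a word -/
abbrev vl (w : Word A) : InvMon (rels c) := val (rels c) w

/-- the projections to the two free groups -/
def p1 (w : Word A) : List (Fin m × Bool) :=
  w.flatMap fun l => match c l.1 with | Sum.inl i => [(i, l.2)] | _ => []

def p2 (w : Word A) : List (Fin m × Bool) :=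
  w.flatMap fun l => match c l.1 with | Sum.inr (Sum.inl i) => [(i, l.2)] | _ => []

/-- a word of the free group as a word in the letters of the first factor -/
def e1 (u : List (Fin m × Bool)) : Word A := u.map fun l => la c l.1 l.2

def e2 (u : List (Fin m × Bool)) : Word A := u.map fun l => lb c l.1 l.2

theorem p1_append (u v : Word A) : p1 c (u ++ v) = p1 c u ++ p1 c v := by
  simp [p1]

theorem p2_append (u v : Word A) : p2 c (u ++ v) = p2 c u ++ p2 c v := by
  simp [p2]

@[simp] theorem p1_la (i : Fin m) (b : Bool) : p1 c [la c i b] = [(i, b)] := by simp [p1, la]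
@[simp] theorem p1_lb (i : Fin m) (b : Bool) : p1 c [lb c i b] = [] := by simp [p1, lb]
@[simp] theorem p1_ls (b : Bool) : p1 c [ls c b] = [] := by simp [p1, ls]
@[simp] theorem p1_lt (b : Bool) : p1 c [lt c b] = [] := by simp [p1, lt]
@[simp] theorem p2_la (i : Fin m) (b : Bool) : p2 c [la c i b] = [] := by simp [p2, la]
@[simp] theorem p2_lb (i : Fin m) (b : Bool) : p2 c [lb c i b] = [(i, b)] := by simp [p2, lb]
@[simp] theorem p2_ls (b : Bool) : p2 c [ls c b] = [] := by simp [p2, ls]
@[simp] theorem p2_lt (b : Bool) : p2 c [lt c b] = [] := by simp [p2, lt]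

theorem p1_cons (l : A × Bool) (w : Word A) : p1 c (l :: w) = p1 c [l] ++ p1 c w :=
  p1_append c [l] w

theorem p2_cons (l : A × Bool) (w : Word A) : p2 c (l :: w) = p2 c [l] ++ p2 c w :=
  p2_append c [l] w

theorem p1_e1 (u : List (Fin m × Bool)) : p1 c (e1 c u) = u := by
  induction u with
  | nil => rfl
  | cons l u ih =>
    have : e1 c (l :: u) = la c l.1 l.2 :: e1 c u := rfl
    rw [this, p1_cons, ih, p1_la]
    rfl

theorem p2_e1 (u : List (Fin m × Bool)) : p2 c (e1 c u) = [] := by
  induction u with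
  | nil => rfl
  | cons l u ih =>
    have : e1 c (l :: u) = la c l.1 l.2 :: e1 c u := rfl
    rw [this, p2_cons, ih, p2_la]
    rfl

theorem p2_e2 (u : List (Fin m × Bool)) : p2 c (e2 c u) = u := by
  induction u with
  | nil => rfl
  | cons l u ih =>
    have : e2 c (l :: u) = lb c l.1 l.2 :: e2 c u := rfl
    rw [this, p2_cons, ih, p2_lb]
    rfl

theorem p1_e2 (u : List (Fin m × Bool)) : p1 c (e2 c u) = [] := by
  induction u with
  | nil => rfl
  | cons l u ih =>
    have : e2 c (l :: u) = lb c l.1 l.2 :: e2 c u := rfl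
    rw [this, p1_cons, ih, p1_lb]
    rfl

/-- the element of `F × F` reached by a word -/
def sg (w : Word A) : FreeGroup (Fin m) × FreeGroup (Fin m) :=
  (FreeGroup.mk (p1 c w), FreeGroup.mk (p2 c w))

theorem sg_nil : sg c [] = 1 := rfl

theorem sg_append (u v : Word A) : sg c (u ++ v) = sg c u * sg c v := by
  unfold sg
  rw [p1_append, p2_append, ← FreeGroup.mul_mk, ← FreeGroup.mul_mk]
  rfl

theorem sg_e1 (u : List (Fin m × Bool)) : sg c (e1 c u) = (FreeGroup.mk u, 1) := by
  unfold sg
  rw [p1_e1, p2_e1]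
  rfl

theorem sg_e2 (u : List (Fin m × Bool)) : sg c (e2 c u) = (1, FreeGroup.mk u) := by
  unfold sg
  rw [p1_e2, p2_e2]
  rfl

/-- the step of a letter -/
theorem sg_la (i : Fin m) (b : Bool) : sg c [la c i b] = (FreeGroup.mk [(i, b)], 1) := by
  unfold sg
  rw [p1_la, p2_la]
  rfl

theorem sg_lb (i : Fin m) (b : Bool) : sg c [lb c i b] = (1, FreeGroup.mk [(i, b)]) := by
  unfold sg
  rw [p1_lb, p2_lb]
  rfl

theorem sg_ls (b : Bool) : sg c [ls c b] = 1 := by
  unfold sg
  rw [p1_ls, p2_ls]
  rfl

theorem sg_lt (b : Bool) : sg c [lt c b] = 1 := by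
  unfold sg
  rw [p1_lt, p2_lt]
  rfl

theorem mk_inv_single (i : Fin m) (b : Bool) :
    (FreeGroup.mk [(i, !b)] : FreeGroup (Fin m)) = (FreeGroup.mk [(i, b)])⁻¹ := by
  rw [FreeGroup.inv_mk]
  rfl

theorem sg_inv_letter (l : A × Bool) : sg c [(l.1, !l.2)] = (sg c [l])⁻¹ := by
  rcases letter_cases c l with ⟨i, b, rfl⟩ | ⟨i, b, rfl⟩ | ⟨b, rfl⟩ | ⟨b, rfl⟩
  · have : ((la c i b).1, !(la c i b).2) = la c i (!b) := rfl
    rw [this, sg_la, sg_la, mk_inv_single, Prod.inv_mk, inv_one]
  · have : ((lb c i b).1, !(lb c i b).2) = lb c i (!b) := rfl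
    rw [this, sg_lb, sg_lb, mk_inv_single, Prod.inv_mk, inv_one]
  · have : ((ls c b).1, !(ls c b).2) = ls c (!b) := rfl
    rw [this, sg_ls, sg_ls, inv_one]
  · have : ((lt c b).1, !(lt c b).2) = lt c (!b) := rfl
    rw [this, sg_lt, sg_lt, inv_one]

theorem sg_invW (w : Word A) : sg c (invW w) = (sg c w)⁻¹ := by
  induction w with
  | nil => simp [invW, sg_nil]
  | cons l w ih =>
    have h1 : invW (l :: w) = invW w ++ [(l.1, !l.2)] := by simp [invW]
    have h2 : l :: w = [l] ++ w := rfl
    rw [h1, h2, sg_append, sg_append, ih, sg_inv_letter, mul_inv_rev]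

/-! ### Relations between the values -/

theorem vl_comm (i j : Fin m) (b b' : Bool) :
    vl c [lb c j b'] * vl c [la c i b] = vl c [la c i b] * vl c [lb c j b'] := by
  have : ([la c i b, lb c j b'], [lb c j b', la c i b]) ∈ rels c :=
    Or.inl (Or.inl (Or.inl ⟨((i, b), (j, b')), rfl⟩))
  exact (val_eq_of_mem this).symm

theorem ss : vl c [ls c true] * vl c [ls c true] = vl c [ls c true] := by
  have : ([ls c true, ls c true], [ls c true]) ∈ rels c :=
    Or.inl (Or.inl (Or.inr (Or.inl rfl)))
  exact val_eq_of_mem this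

theorem tt : vl c [lt c true] * vl c [lt c true] = vl c [lt c true] := by
  have : ([lt c true, lt c true], [lt c true]) ∈ rels c :=
    Or.inl (Or.inl (Or.inr (Or.inr rfl)))
  exact val_eq_of_mem this

theorem vl_ls (b : Bool) : vl c [ls c b] = vl c [ls c true] := by
  cases b
  · exact idem_eq (w := [ls c true]) (ss c)
  · rfl

theorem vl_lt (b : Bool) : vl c [lt c b] = vl c [lt c true] := by
  cases b
  · exact idem_eq (w := [lt c true]) (tt c)
  · rfl

/-- the zero -/
def zz : InvMon (rels c) := vl c [ls c true, lt c true]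

theorem zz_eq : zz c = vl c [ls c true] * vl c [lt c true] := rfl

theorem zz_mul_letter (x : A × Bool) : zz c * vl c [x] = zz c := by
  have : ([ls c true, lt c true, x], [ls c true, lt c true]) ∈ rels c :=
    Or.inl (Or.inr ⟨x, rfl⟩)
  exact val_eq_of_mem this

theorem letter_mul_zz (x : A × Bool) : vl c [x] * zz c = zz c := by
  have : ([x, ls c true, lt c true], [ls c true, lt c true]) ∈ rels c :=
    Or.inr ⟨x, rfl⟩
  exact val_eq_of_mem this

theorem zz_mul (x : InvMon (rels c)) : zz c * x = zz c := by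
  obtain ⟨w, rfl⟩ := val_surj x
  induction w with
  | nil => rw [val_nil, mul_one]
  | cons l w ih =>
    have : val (rels c) (l :: w) = vl c [l] * val (rels c) w := rfl
    rw [this, ← mul_assoc, zz_mul_letter, ih]

theorem mul_zz (x : InvMon (rels c)) : x * zz c = zz c := by
  obtain ⟨w, rfl⟩ := val_surj x
  induction w with
  | nil => rw [val_nil, one_mul]
  | cons l w ih =>
    have : val (rels c) (l :: w) = vl c [l] * val (rels c) w := rfl
    rw [this, mul_assoc, ih, letter_mul_zz]

/-! ### Words which return to the origin are idempotent -/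

theorem comm_e1 (j : Fin m) (b : Bool) (u : List (Fin m × Bool)) :
    vl c [lb c j b] * vl c (e1 c u) = vl c (e1 c u) * vl c [lb c j b] := by
  induction u with
  | nil =>
    have : vl c (e1 c []) = 1 := rfl
    rw [this, one_mul, mul_one]
  | cons l u ih =>
    have : vl c (e1 c (l :: u)) = vl c [la c l.1 l.2] * vl c (e1 c u) := rfl
    rw [this, ← mul_assoc, vl_comm, mul_assoc, ih, mul_assoc]

theorem ord (w : Word A) : Le (vl c w) (vl c (e1 c (p1 c w)) * vl c (e2 c (p2 c w))) := by
  induction w with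
  | nil =>
    have : vl c (e1 c (p1 c [])) * vl c (e2 c (p2 c [])) = 1 := by
      show (1 : InvMon (rels c)) * 1 = 1
      rw [one_mul]
    rw [this]
    exact Le.refl _
  | cons l w ih =>
    have h0 : vl c (l :: w) = vl c [l] * vl c w := rfl
    rw [h0]
    have h1 := ih.mul_left (vl c [l])
    rcases letter_cases c l with ⟨i, b, rfl⟩ | ⟨i, b, rfl⟩ | ⟨b, rfl⟩ | ⟨b, rfl⟩
    · rw [p1_cons, p2_cons, p1_la, p2_la]
      rw [← mul_assoc] at h1
      exact h1
    · rw [p1_cons, p2_cons, p1_lb, p2_lb]
      rw [← mul_assoc, comm_e1, mul_assoc] at h1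
      exact h1
    · rw [p1_cons, p2_cons, p1_ls, p2_ls, vl_ls]
      refine Le.trans ?_ ih
      have h2 : Le (vl c [ls c true]) 1 := le_one_iff.2 (ss c)
      have := h2.mul_right (vl c w)
      rwa [one_mul] at this
    · rw [p1_cons, p2_cons, p1_lt, p2_lt, vl_lt]
      refine Le.trans ?_ ih
      have h2 : Le (vl c [lt c true]) 1 := le_one_iff.2 (tt c)
      have := h2.mul_right (vl c w)
      rwa [one_mul] at this

theorem red_le (f : Fin m × Bool → A × Bool) (hf : ∀ i b, f (i, !b) = ((f (i, b)).1, !(f (i, b)).2))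
    {u v : List (Fin m × Bool)} (h : FreeGroup.Red u v) :
    Le (vl c (u.map f)) (vl c (v.map f)) := by
  induction h with
  | refl => exact Le.refl _
  | tail _ h2 ih =>
    refine Le.trans ih ?_
    cases h2 with
    | @not L1 L2 x b =>
      have h3 : vl c ((L1 ++ (x, b) :: (x, !b) :: L2).map f) =
          vl c (L1.map f) * (vl c [f (x, b)] * vl c (invW [f (x, b)]) * vl c (L2.map f)) := by
        rw [List.map_append, List.map_cons, List.map_cons, hf]
        rfl
      have h4 : vl c ((L1 ++ L2).map f) = vl c (L1.map f) * (1 * vl c (L2.map f)) := by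
        rw [List.map_append, one_mul]
        rfl
      rw [h3, h4]
      exact ((le_one_mul [f (x, b)]).mul_right _).mul_left _

theorem red_one (f : Fin m × Bool → A × Bool) (hf : ∀ i b, f (i, !b) = ((f (i, b)).1, !(f (i, b)).2))
    {u : List (Fin m × Bool)} (h : FreeGroup.mk u = 1) : Le (vl c (u.map f)) 1 := by
  rw [FreeGroup.one_eq_mk] at h
  obtain ⟨L, h1, h2⟩ := FreeGroup.Red.exact.1 h
  rw [FreeGroup.Red.nil_iff] at h2
  rw [h2] at h1
  exact red_le c f hf h1

theorem le_one_of_sg {w : Word A} (h : sg c w = 1) : Le (vl c w) 1 := by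
  have h1 : FreeGroup.mk (p1 c w) = 1 := congrArg Prod.fst h
  have h2 : FreeGroup.mk (p2 c w) = 1 := congrArg Prod.snd h
  have h3 : Le (vl c (e1 c (p1 c w))) 1 := red_one c (fun l => la c l.1 l.2) (fun _ _ => rfl) h1
  have h4 : Le (vl c (e2 c (p2 c w))) 1 := red_one c (fun l => lb c l.1 l.2) (fun _ _ => rfl) h2
  refine Le.trans (ord c w) ?_
  have h5 := h3.mul_right (vl c (e2 c (p2 c w)))
  rw [one_mul] at h5
  exact h5.trans h4

theorem idem_of_sg {w : Word A} (h : sg c w = 1) : vl c w * vl c w = vl c w :=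
  le_one_iff.1 (le_one_of_sg c h)

/-- `s q t = 0` and `t q s = 0` if `q` returns to the origin -/
theorem stz {q : Word A} (h : sg c q = 1) : vl c [ls c true] * vl c q * vl c [lt c true] = zz c := by
  rw [idem_comm (ss c) (idem_of_sg c h), mul_assoc, ← zz_eq, mul_zz]

theorem tsz {q : Word A} (h : sg c q = 1) : vl c [lt c true] * vl c q * vl c [ls c true] = zz c := by
  rw [idem_comm (tt c) (idem_of_sg c h), mul_assoc, idem_comm (tt c) (ss c), ← zz_eq, mul_zz]

theorem zero_of_clash {w u1 u2 v1 v2 : Word A} {b b' : Bool} (hu : w = u1 ++ ls c b :: u2)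
    (hv : w = v1 ++ lt c b' :: v2) (h : sg c u1 = sg c v1) : vl c w = zz c := by
  have hne : ls c b ≠ lt c b' := by
    intro h
    have := congrArg Prod.fst h
    have := c.symm.injective this
    simp at this
  have h0 := hu.symm.trans hv
  rw [List.append_eq_append_iff] at h0
  rcases h0 with ⟨r, hr1, hr2⟩ | ⟨r, hr1, hr2⟩
  · -- `v1 = u1 ++ r`, `ls :: u2 = r ++ lt :: v2`
    cases r with
    | nil => simp at hr2; exact absurd hr2.1 hne
    | cons x r =>
      rw [List.cons_append, List.cons.injEq] at hr2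
      obtain ⟨rfl, hr2⟩ := hr2
      have hs : sg c r = 1 := by
        have h1 : v1 = u1 ++ ([ls c b] ++ r) := hr1
        rw [h1, sg_append, sg_append, sg_ls, one_mul] at h
        exact (mul_eq_left.1 h.symm)
      have hw : vl c w = vl c u1 * (vl c [ls c true] * vl c r * vl c [lt c true]) * vl c v2 := by
        rw [hu, hr2, ← vl_ls c b, ← vl_lt c b']
        have : u1 ++ ls c b :: (r ++ lt c b' :: v2) = u1 ++ ([ls c b] ++ r ++ [lt c b']) ++ v2 := by
          simp
        rw [this]
        rfl
      rw [hw, stz c hs, mul_zz, zz_mul]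
  · cases r with
    | nil => simp at hr2; exact absurd hr2.1.symm hne
    | cons x r =>
      rw [List.cons_append, List.cons.injEq] at hr2
      obtain ⟨rfl, hr2⟩ := hr2
      have hs : sg c r = 1 := by
        have h1 : u1 = v1 ++ ([lt c b'] ++ r) := hr1
        rw [h1, sg_append, sg_append, sg_lt, one_mul] at h
        exact (mul_eq_left.1 h)
      have hw : vl c w = vl c v1 * (vl c [lt c true] * vl c r * vl c [ls c true]) * vl c u2 := by
        rw [hv, hr2, ← vl_ls c b, ← vl_lt c b']
        have : v1 ++ lt c b' :: (r ++ ls c b :: u2) = v1 ++ ([lt c b'] ++ r ++ [ls c b]) ++ u2 := by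
          simp
        rw [this]
        rfl
      rw [hw, tsz c hs, mul_zz, zz_mul]

theorem invW_congr {p q : Word A} (h : vl c p = vl c q) : vl c (invW p) = vl c (invW q) := by
  obtain ⟨b, -, hb⟩ := isInverseMonoid (rels c) (vl c p)
  have h1 := hb (vl c (invW p)) ⟨val_reg p, val_reg' p⟩
  have h2 := hb (vl c (invW q)) (by rw [h]; exact ⟨val_reg q, val_reg' q⟩)
  rw [h1, h2]

/-- an element is determined by its domain and the element of `F × F` -/
theorem eq_of_dom_sg {p q : Word A}
    (h1 : vl c p * vl c (invW p) = vl c q * vl c (invW q)) (h2 : sg c p = sg c q) :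
    vl c p = vl c q := by
  refine eq_of_idem h1 ?_ ?_
  · apply le_one_of_sg
    rw [sg_append, sg_invW, h2, inv_mul_cancel]
  · apply le_one_of_sg
    rw [sg_append, sg_invW, h2, inv_mul_cancel]

/-- elements of one strongly connected component have the same domain -/
theorem dom_eq {p q u u' : Word A} (h1 : vl c q = vl c p * vl c u) (h2 : vl c p = vl c q * vl c u') :
    vl c p * vl c (invW p) = vl c q * vl c (invW q) := by
  have key : ∀ {p q u : Word A}, vl c q = vl c p * vl c u →
      (vl c p * vl c (invW p)) * (vl c q * vl c (invW q)) = vl c q * vl c (invW q) := by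
    intro p q u h
    have h3 : vl c p * vl c (invW p) * vl c q = vl c q := by
      rw [h, ← mul_assoc, val_reg]
    rw [← mul_assoc, h3]
  have h3 := key h1
  have h4 := key h2
  have i1 : (vl c p * vl c (invW p)) * (vl c p * vl c (invW p)) = vl c p * vl c (invW p) :=
    le_one_iff.1 (le_one_mul p)
  have i2 : (vl c q * vl c (invW q)) * (vl c q * vl c (invW q)) = vl c q * vl c (invW q) :=
    le_one_iff.1 (le_one_mul q)
  calc vl c p * vl c (invW p) = (vl c q * vl c (invW q)) * (vl c p * vl c (invW p)) := h4.symm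
    _ = (vl c p * vl c (invW p)) * (vl c q * vl c (invW q)) := idem_comm i2 i1
    _ = vl c q * vl c (invW q) := h3

end Pool.Agent.Q38.IM
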