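import Pool.Agent.Q38.IM.Graph

/-!
# The generators: when is the zero in the submonoid?
-/

set_option autoImplicit false

namespace Pool.Agent.Q38.IM

section Defs

variable {A : Type}

/-- the values of the words of a list -/
def vals (R : Set (Word A × Word A)) (X : List (Word A)) : Set (InvMon R) := {x | ∃ u ∈ X, val R u = x}

/-- closed under the passage to the inverse -/
def InvClosed {M : Type} [Monoid M] (N : Submonoid M) : Prop :=
  ∀ a ∈ N, ∀ b : M, a * b * a = a → b * a * b = b → b ∈ N

/-- closed upwards in the natural partial order -/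
def UpClosed {R : Set (Word A × Word A)} (N : Submonoid (InvMon R)) : Prop :=
  ∀ h ∈ N, ∀ x, Le h x → x ∈ N

end Defs

variable {A : Type} {m : ℕ} (c : A ≃ Fin m ⊕ Fin m ⊕ Bool)

/-- the fixed words: `x_i y_i` and their inverses, the relators in the letters `y` and their
inverses, and `s` -/
noncomputable def fixedX (R : Finset (FreeGroup (Fin m))) : List (Word A) :=
  ((Finset.univ : Finset (Fin m × Bool)).toList.map fun p => [la c p.1 p.2, lb c p.1 p.2]) ++
    (R.toList.map fun r => e2 c r.toWord) ++ (R.toList.map fun r => invW (e2 c r.toWord)) ++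
    [[ls c true]]

/-- the words of the instance `w` -/
noncomputable def XX (R : Finset (FreeGroup (Fin m))) (w : List (Fin m × Bool)) : List (Word A) :=
  fixedX c R ++ [e2 c w ++ [lt c true] ++ invW (e2 c w)]

/-- the subgroup of Mikhailova -/
def HH (R : Finset (FreeGroup (Fin m))) : Subgroup (FF m) :=
  Subgroup.closure (Set.range (fun i : Fin m => (FreeGroup.of i, FreeGroup.of i)) ∪
    (fun r => (1, r)) '' (R : Set (FreeGroup (Fin m))))

theorem diag_mem (R : Finset (FreeGroup (Fin m))) (x : FreeGroup (Fin m)) : (x, x) ∈ HH R := by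
  induction x using FreeGroup.induction_on with
  | C1 => exact (HH R).one_mem
  | of i => exact Subgroup.subset_closure (Or.inl ⟨i, rfl⟩)
  | inv_of i h => exact (HH R).inv_mem h
  | mul x y hx hy => exact (HH R).mul_mem hx hy

theorem mem_HH_iff (R : Finset (FreeGroup (Fin m))) (g : FreeGroup (Fin m)) :
    (1, g) ∈ HH R ↔ g ∈ Subgroup.normalClosure (R : Set (FreeGroup (Fin m))) := by
  constructor
  · intro h
    let N := Subgroup.normalClosure (R : Set (FreeGroup (Fin m)))
    let f1 : FF m →* FreeGroup (Fin m) ⧸ N := (QuotientGroup.mk' N).comp (MonoidHom.fst _ _)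
    let f2 : FF m →* FreeGroup (Fin m) ⧸ N := (QuotientGroup.mk' N).comp (MonoidHom.snd _ _)
    have hle : HH R ≤ f1.eqLocus f2 := by
      unfold HH
      rw [Subgroup.closure_le]
      rintro x (⟨i, rfl⟩ | ⟨r, hr, rfl⟩)
      · rfl
      · show QuotientGroup.mk' N 1 = QuotientGroup.mk' N r
        rw [map_one]
        exact ((QuotientGroup.eq_one_iff r).2 (Subgroup.subset_normalClosure hr)).symm
    have h1 : f1 (1, g) = f2 (1, g) := hle h
    have h2 : QuotientGroup.mk' N 1 = QuotientGroup.mk' N g := h1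
    rw [map_one] at h2
    exact (QuotientGroup.eq_one_iff g).1 h2.symm
  · intro h
    let K : Subgroup (FreeGroup (Fin m)) := (HH R).comap (MonoidHom.inr _ _)
    have hK : K.Normal := by
      refine ⟨fun n hn g => ?_⟩
      have h1 : ((1 : FreeGroup (Fin m)), n) ∈ HH R := hn
      have h2 := (HH R).mul_mem ((HH R).mul_mem (diag_mem R g) h1) ((HH R).inv_mem (diag_mem R g))
      have h3 : ((g, g) * ((1 : FreeGroup (Fin m)), n) * (g, g)⁻¹) = (1, g * n * g⁻¹) := by
        simp
      rw [h3] at h2
      exact h2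
    have hle : Subgroup.normalClosure (R : Set (FreeGroup (Fin m))) ≤ K := by
      refine Subgroup.normalClosure_le_normal ?_
      intro r hr
      exact Subgroup.subset_closure (Or.inr ⟨r, hr, rfl⟩)
    exact hle h

section Not

variable (R : Finset (FreeGroup (Fin m))) (w : List (Fin m × Bool))

/-- if `(1, w)` is not in the subgroup, then the zero is not even in the closed inverse submonoid -/
theorem exists_sub (hw : ((1 : FreeGroup (Fin m)), FreeGroup.mk w) ∉ HH R) :
    ∃ N : Submonoid (InvMon (rels c)), vals (rels c) (XX c R w) ⊆ N ∧ InvClosed N ∧ UpClosed N ∧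
      zz c ∉ N := by
  classical
  let g : FF m := (1, FreeGroup.mk w)
  let S : Set (FF m) := HH R
  let T : Set (FF m) := {z | z * g⁻¹ ∈ HH R}
  have hST : Disjoint S T := by
    rw [Set.disjoint_left]
    intro z h1 h2
    apply hw
    have h3 := (HH R).mul_mem ((HH R).inv_mem h2) h1
    rwa [mul_inv_rev, inv_inv, mul_assoc, inv_mul_cancel, mul_one] at h3
  obtain ⟨φ, h1, h2, h3⟩ := exists_rep c Set.univ Set.univ S T hST
  let Q : InvMon (rels c) → Prop := fun x => ∀ h ∈ HH R,
    (∃ h' ∈ HH R, φ x h = some h') ∧ (∃ h' ∈ HH R, φ x h' = some h)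
  have hone : φ 1 = PEquiv.refl _ := h1 []
  have Qone : Q 1 := by
    intro h hh
    refine ⟨⟨h, hh, ?_⟩, ⟨h, hh, ?_⟩⟩ <;> rw [hone, PEquiv.refl_apply]
  have Qmul : ∀ x y, Q x → Q y → Q (x * y) := by
    intro x y hx hy h hh
    constructor
    · obtain ⟨a, ha, e1⟩ := (hx h hh).1
      obtain ⟨b, hb, e2⟩ := (hy a ha).1
      exact ⟨b, hb, by rw [h2, PEquiv.trans_eq_some]; exact ⟨a, e1, e2⟩⟩
    · obtain ⟨a, ha, e1⟩ := (hy h hh).2
      obtain ⟨b, hb, e2⟩ := (hx a ha).2
      exact ⟨b, hb, by rw [h2, PEquiv.trans_eq_some]; exact ⟨a, e2, e1⟩⟩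
  have Qinv : ∀ u : Word A, Q (vl c u) → Q (vl c (invW u)) := by
    intro u hu h hh
    have e : φ (vl c (invW u)) = (φ (vl c u)).symm := by
      rw [h1, h1, run_invW _ (gen_inv c _ _ _)]
    obtain ⟨⟨a, ha, e1⟩, ⟨b, hb, e2⟩⟩ := hu h hh
    exact ⟨⟨b, hb, by rw [e, PEquiv.eq_some_iff]; exact e2⟩,
      ⟨a, ha, by rw [e, PEquiv.eq_some_iff]; exact e1⟩⟩
  let N : Submonoid (InvMon (rels c)) :=
    { carrier := {x | Q x}
      one_mem' := Qone
      mul_mem' := fun {x y} hx hy => Qmul x y hx hy }
  -- the letters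
  have hla : ∀ i b (z : FF m), φ (vl c [la c i b]) z = some (z * (FreeGroup.mk [(i, b)], 1)) := by
    intro i b z
    rw [h1, run_single, gen_la, mv_eq_some]
    exact ⟨⟨⟨trivial, trivial⟩, ⟨trivial, trivial⟩⟩, rfl⟩
  have hlb : ∀ i b (z : FF m), φ (vl c [lb c i b]) z = some (z * (1, FreeGroup.mk [(i, b)])) := by
    intro i b z
    rw [h1, run_single, gen_lb, mv_eq_some]
    exact ⟨⟨⟨trivial, trivial⟩, ⟨trivial, trivial⟩⟩, rfl⟩
  have he2 : ∀ (u : List (Fin m × Bool)) (z : FF m),
      φ (vl c (e2 c u)) z = some (z * (1, FreeGroup.mk u)) := by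
    intro u
    induction u with
    | nil =>
      intro z
      have : φ (vl c (e2 c ([] : List (Fin m × Bool)))) = PEquiv.refl _ := h1 []
      rw [this, PEquiv.refl_apply]
      have : ((1 : FreeGroup (Fin m)), (FreeGroup.mk [] : FreeGroup (Fin m))) = 1 := rfl
      rw [this, mul_one]
    | cons l u ih =>
      intro z
      have h4 : vl c (e2 c (l :: u)) = vl c [lb c l.1 l.2] * vl c (e2 c u) := rfl
      rw [h4, h2, PEquiv.trans_eq_some]
      refine ⟨_, hlb _ _ _, ?_⟩
      rw [ih, mul_assoc]
      have : ((1 : FreeGroup (Fin m)), FreeGroup.mk [(l.1, l.2)]) * (1, FreeGroup.mk u) =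
          (1, FreeGroup.mk (l :: u)) := by
        rw [Prod.mk_mul_mk, FreeGroup.mul_mk, mul_one]
        rfl
      rw [this]
  -- words which act as a translation by an element of the subgroup
  have Qtrans : ∀ (x : InvMon (rels c)) (a : FF m), a ∈ HH R → (∀ z, φ x z = some (z * a)) → Q x := by
    intro x a ha hx h hh
    refine ⟨⟨h * a, (HH R).mul_mem hh ha, hx h⟩, ⟨h * a⁻¹, (HH R).mul_mem hh ((HH R).inv_mem ha), ?_⟩⟩
    rw [hx, inv_mul_cancel_right]
  have Qe2 : ∀ r ∈ R, Q (vl c (e2 c r.toWord)) := by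
    intro r hr
    refine Qtrans _ (1, r) (Subgroup.subset_closure (Or.inr ⟨r, hr, rfl⟩)) fun z => ?_
    rw [he2, FreeGroup.mk_toWord]
  refine ⟨N, ?_, ?_, ?_, ?_⟩
  · rintro x ⟨u, hu, rfl⟩
    show Q (vl c u)
    unfold XX fixedX at hu
    simp only [List.mem_append, List.mem_map, Finset.mem_toList, List.mem_singleton,
      Finset.mem_univ, true_and] at hu
    rcases hu with (((⟨⟨i, b⟩, rfl⟩ | ⟨r, hr, rfl⟩) | ⟨r, hr, rfl⟩) | rfl) | rfl
    · refine Qtrans _ (FreeGroup.mk [(i, b)], FreeGroup.mk [(i, b)]) (diag_mem R _) fun z => ?_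
      have h4 : vl c [la c i b, lb c i b] = vl c [la c i b] * vl c [lb c i b] := rfl
      show φ (vl c [la c i b, lb c i b]) z = _
      rw [h4, h2, PEquiv.trans_eq_some]
      refine ⟨_, hla _ _ _, ?_⟩
      have h5 : ((FreeGroup.mk [(i, b)], 1) : FF m) * (1, FreeGroup.mk [(i, b)]) =
          (FreeGroup.mk [(i, b)], FreeGroup.mk [(i, b)]) := by
        rw [Prod.mk_mul_mk, mul_one, one_mul]
      rw [hlb, mul_assoc, h5]
    · exact Qe2 r hr
    · exact Qinv _ (Qe2 r hr)
    · intro h hh
      have : φ (vl c [ls c true]) h = some h := by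
        rw [h1, run_single, gen_ls, PEquiv.ofSet_eq_some_iff]
        exact ⟨rfl, hh⟩
      exact ⟨⟨h, hh, this⟩, ⟨h, hh, this⟩⟩
    · intro h hh
      have : φ (vl c (e2 c w ++ [lt c true] ++ invW (e2 c w))) h = some h := by
        have h4 : vl c (e2 c w ++ [lt c true] ++ invW (e2 c w)) =
          vl c (e2 c w) * vl c [lt c true] * vl c (invW (e2 c w)) := rfl
        rw [h4, h2, PEquiv.trans_eq_some]
        refine ⟨h * g, ?_, ?_⟩
        · rw [h2, PEquiv.trans_eq_some]
          refine ⟨h * g, he2 w h, ?_⟩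
          rw [h1, run_single, gen_lt, PEquiv.ofSet_eq_some_iff]
          refine ⟨rfl, ?_⟩
          show h * g * g⁻¹ ∈ HH R
          rwa [mul_inv_cancel_right]
        · rw [h1, run_invW _ (gen_inv c _ _ _), PEquiv.eq_some_iff, ← h1]
          exact he2 w h
      exact ⟨⟨h, hh, this⟩, ⟨h, hh, this⟩⟩
  · intro a ha b hab hba
    obtain ⟨u, rfl⟩ := val_surj a
    obtain ⟨b', -, hb'⟩ := isInverseMonoid (rels c) (vl c u)
    have e1 := hb' b ⟨hab, hba⟩
    have e2 := hb' (vl c (invW u)) ⟨val_reg u, val_reg' u⟩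
    rw [e1, ← e2]
    exact Qinv u ha
  · rintro x hx y ⟨e, he, rfl⟩
    have hey : ∀ a b, φ (e * y) a = some b → φ y a = some b := by
      intro a b hab
      rw [h2, PEquiv.trans_eq_some] at hab
      obtain ⟨k, h4, h5⟩ := hab
      -- `e` is idempotent
      have h6 : φ e k = some k := by
        have h7 := h4
        rw [← he, h2, PEquiv.trans_eq_some] at h7
        obtain ⟨k', h8, h9⟩ := h7
        rw [h4, Option.some.injEq] at h8
        rw [← h8] at h9
        exact h9
      have h7 : a = k := by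
        rw [← PEquiv.eq_some_iff] at h4 h6
        rw [h4, Option.some.injEq] at h6
        exact h6
      rw [h7]
      exact h5
    intro h hh
    obtain ⟨⟨a, ha, e1⟩, ⟨b, hb, e2⟩⟩ := hx h hh
    exact ⟨⟨a, ha, hey _ _ e1⟩, ⟨b, hb, hey _ _ e2⟩⟩
  · intro hz
    obtain ⟨⟨a, ha, e1⟩, -⟩ := hz 1 (HH R).one_mem
    rw [h3] at e1
    simp at e1

end Not

section Yes

variable (R : Finset (FreeGroup (Fin m))) (w : List (Fin m × Bool))

theorem vl_inv_mem {u : Word A} (hu : vl c u ∈ Submonoid.closure (vals (rels c) (XX c R w))) :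
    vl c (invW u) ∈ Submonoid.closure (vals (rels c) (XX c R w)) := by
  have key : ∀ x ∈ Submonoid.closure (vals (rels c) (XX c R w)),
      ∃ v : Word A, vl c v = x ∧ vl c (invW v) ∈ Submonoid.closure (vals (rels c) (XX c R w)) := by
    intro x hx
    induction hx using Submonoid.closure_induction with
    | mem x hx =>
      obtain ⟨u, hu, rfl⟩ := hx
      refine ⟨u, rfl, ?_⟩
      unfold XX fixedX at hu
      simp only [List.mem_append, List.mem_map, Finset.mem_toList, List.mem_singleton,
        Finset.mem_univ, true_and] at hu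
      rcases hu with (((⟨⟨i, b⟩, rfl⟩ | ⟨r, hr, rfl⟩) | ⟨r, hr, rfl⟩) | rfl) | rfl
      · have h1 : vl c (invW [la c i b, lb c i b]) = vl c [la c i (!b), lb c i (!b)] := by
          have h2 : vl c (invW [la c i b, lb c i b]) = vl c [lb c i (!b)] * vl c [la c i (!b)] :=
            rfl
          rw [h2, vl_comm]
          rfl
        rw [h1]
        refine Submonoid.subset_closure ⟨[la c i (!b), lb c i (!b)], ?_, rfl⟩
        unfold XX fixedX
        simp only [List.mem_append, List.mem_map, Finset.mem_toList,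
          Finset.mem_univ, true_and]
        exact Or.inl (Or.inl (Or.inl (Or.inl ⟨(i, !b), rfl⟩)))
      · refine Submonoid.subset_closure ⟨invW (e2 c r.toWord), ?_, rfl⟩
        unfold XX fixedX
        simp only [List.mem_append, List.mem_map, Finset.mem_toList]
        exact Or.inl (Or.inl (Or.inr ⟨r, hr, rfl⟩))
      · rw [invW_invW]
        refine Submonoid.subset_closure ⟨e2 c r.toWord, ?_, rfl⟩
        unfold XX fixedX
        simp only [List.mem_append, List.mem_map, Finset.mem_toList]
        exact Or.inl (Or.inl (Or.inl (Or.inr ⟨r, hr, rfl⟩)))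
      · have h1 : vl c (invW [ls c true]) = vl c [ls c true] := vl_ls c false
        rw [h1]
        refine Submonoid.subset_closure ⟨[ls c true], ?_, rfl⟩
        unfold XX fixedX
        simp only [List.mem_append, List.mem_singleton]
        exact Or.inl (Or.inr trivial)
      · have h1 : vl c (invW (e2 c w ++ [lt c true] ++ invW (e2 c w))) =
            vl c (e2 c w ++ [lt c true] ++ invW (e2 c w)) := by
          rw [invW_append, invW_append, invW_invW]
          have h2 : vl c (e2 c w ++ (invW [lt c true] ++ invW (e2 c w))) =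
            vl c (e2 c w) * (vl c [lt c false] * vl c (invW (e2 c w))) := rfl
          rw [h2, vl_lt, ← mul_assoc]
          rfl
        rw [h1]
        refine Submonoid.subset_closure ⟨_, ?_, rfl⟩
        unfold XX
        simp only [List.mem_append, List.mem_singleton]
        exact Or.inr trivial
    | one => exact ⟨[], rfl, Submonoid.one_mem _⟩
    | mul x y _ _ hx hy =>
      obtain ⟨p, rfl, hp⟩ := hx
      obtain ⟨q, rfl, hq⟩ := hy
      refine ⟨p ++ q, rfl, ?_⟩
      rw [invW_append]
      exact Submonoid.mul_mem _ hq hp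
  obtain ⟨v, h1, h2⟩ := key _ hu
  rw [← invW_congr c h1]
  exact h2

theorem exists_word {g : FF m} (hg : g ∈ HH R) :
    ∃ u : Word A, sg c u = g ∧ vl c u ∈ Submonoid.closure (vals (rels c) (XX c R w)) := by
  unfold HH at hg
  induction hg using Subgroup.closure_induction with
  | mem g hg =>
    rcases hg with ⟨i, rfl⟩ | ⟨r, hr, rfl⟩
    · refine ⟨[la c i true, lb c i true], ?_, Submonoid.subset_closure
        ⟨[la c i true, lb c i true], ?_, rfl⟩⟩
      · have : [la c i true, lb c i true] = [la c i true] ++ [lb c i true] := rfl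
        rw [this, sg_append, sg_la, sg_lb, Prod.mk_mul_mk, mul_one, one_mul]
        rfl
      · unfold XX fixedX
        simp only [List.mem_append, List.mem_map, Finset.mem_toList,
          Finset.mem_univ, true_and]
        exact Or.inl (Or.inl (Or.inl (Or.inl ⟨(i, true), rfl⟩)))
    · refine ⟨e2 c r.toWord, ?_, Submonoid.subset_closure ⟨e2 c r.toWord, ?_, rfl⟩⟩
      · rw [sg_e2, FreeGroup.mk_toWord]
      · unfold XX fixedX
        simp only [List.mem_append, List.mem_map, Finset.mem_toList]
        exact Or.inl (Or.inl (Or.inl (Or.inr ⟨r, hr, rfl⟩)))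
  | one => exact ⟨[], sg_nil c, Submonoid.one_mem _⟩
  | mul x y _ _ hx hy =>
    obtain ⟨u, rfl, hu⟩ := hx
    obtain ⟨v, rfl, hv⟩ := hy
    exact ⟨u ++ v, sg_append c u v, Submonoid.mul_mem _ hu hv⟩
  | inv x _ hx =>
    obtain ⟨u, rfl, hu⟩ := hx
    exact ⟨invW u, sg_invW c u, vl_inv_mem c R w hu⟩

theorem zz_mem (hw : ((1 : FreeGroup (Fin m)), FreeGroup.mk w) ∈ HH R) :
    zz c ∈ Submonoid.closure (vals (rels c) (XX c R w)) := by
  obtain ⟨u, h1, h2⟩ := exists_word c R w hw
  have h3 : sg c (invW (e2 c w) ++ u) = 1 := by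
    rw [sg_append, sg_invW, sg_e2, h1, inv_mul_cancel]
  have h4 : vl c (e2 c w ++ [lt c true] ++ invW (e2 c w)) * vl c u * vl c [ls c true] = zz c := by
    have h5 : vl c (e2 c w ++ [lt c true] ++ invW (e2 c w)) * vl c u * vl c [ls c true] =
        vl c (e2 c w) * (vl c [lt c true] * vl c (invW (e2 c w) ++ u) * vl c [ls c true]) := by
      have h6 : vl c (e2 c w ++ [lt c true] ++ invW (e2 c w)) =
          vl c (e2 c w) * vl c [lt c true] * vl c (invW (e2 c w)) := rfl
      have h7 : vl c (invW (e2 c w) ++ u) = vl c (invW (e2 c w)) * vl c u := rfl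
      rw [h6, h7]
      simp only [mul_assoc]
    rw [h5, tsz c h3, mul_zz]
  rw [← h4]
  refine Submonoid.mul_mem _ (Submonoid.mul_mem _ ?_ h2) ?_
  · refine Submonoid.subset_closure ⟨_, ?_, rfl⟩
    unfold XX
    simp only [List.mem_append, List.mem_singleton]
    exact Or.inr trivial
  · refine Submonoid.subset_closure ⟨[ls c true], ?_, rfl⟩
    unfold XX fixedX
    simp only [List.mem_append, List.mem_singleton]
    exact Or.inl (Or.inr trivial)

end Yes

end Pool.Agent.Q38.IM
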